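import Pool.Agent.Lib_helper14.LSPB.Defs

/-!
Part B, linear algebra: symmetric bilinear forms with a complex kernel, their numerical radius
on real vectors, the extremal vector.
-/

open scoped BigOperators ComplexConjugate

noncomputable section

namespace Pool.Agent.LSPB

variable {ι ω : Type*}

/-- bilinear form with kernel K and masses m -/
def bil (UU : Finset ω) (m : ω → ℝ) (K : ω → ω → ℂ) (a b : ω → ℂ) : ℂ :=
  ∑ u ∈ UU, ∑ v ∈ UU, (m u : ℂ) * (m v : ℂ) * a u * b v * K u v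

/-- squared norm -/
def nsq (UU : Finset ω) (m : ω → ℝ) (a : ω → ℂ) : ℝ := ∑ u ∈ UU, m u * ‖a u‖ ^ 2

theorem bil_add_left (UU : Finset ω) (m : ω → ℝ) (K : ω → ω → ℂ) (a a' b : ω → ℂ) :
    bil UU m K (fun u => a u + a' u) b = bil UU m K a b + bil UU m K a' b := by
  simp only [bil, ← Finset.sum_add_distrib]
  refine Finset.sum_congr rfl fun u _ => Finset.sum_congr rfl fun v _ => ?_
  ring

theorem bil_add_right (UU : Finset ω) (m : ω → ℝ) (K : ω → ω → ℂ) (a b b' : ω → ℂ) :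
    bil UU m K a (fun u => b u + b' u) = bil UU m K a b + bil UU m K a b' := by
  simp only [bil, ← Finset.sum_add_distrib]
  refine Finset.sum_congr rfl fun u _ => Finset.sum_congr rfl fun v _ => ?_
  ring

theorem bil_smul_left (UU : Finset ω) (m : ω → ℝ) (K : ω → ω → ℂ) (c : ℂ) (a b : ω → ℂ) :
    bil UU m K (fun u => c * a u) b = c * bil UU m K a b := by
  simp only [bil, Finset.mul_sum]
  refine Finset.sum_congr rfl fun u _ => Finset.sum_congr rfl fun v _ => ?_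
  ring

theorem bil_smul_right (UU : Finset ω) (m : ω → ℝ) (K : ω → ω → ℂ) (c : ℂ) (a b : ω → ℂ) :
    bil UU m K a (fun u => c * b u) = c * bil UU m K a b := by
  simp only [bil, Finset.mul_sum]
  refine Finset.sum_congr rfl fun u _ => Finset.sum_congr rfl fun v _ => ?_
  ring

theorem bil_comm (UU : Finset ω) (m : ω → ℝ) (K : ω → ω → ℂ)
    (hK : ∀ u ∈ UU, ∀ v ∈ UU, K u v = K v u) (a b : ω → ℂ) :
    bil UU m K a b = bil UU m K b a := by
  unfold bil
  rw [Finset.sum_comm]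
  refine Finset.sum_congr rfl fun u hu => Finset.sum_congr rfl fun v hv => ?_
  rw [hK v hv u hu]
  ring

theorem bil_congr (UU : Finset ω) (m : ω → ℝ) (K : ω → ω → ℂ) {a a' b b' : ω → ℂ}
    (ha : ∀ u ∈ UU, a u = a' u) (hb : ∀ u ∈ UU, b u = b' u) :
    bil UU m K a b = bil UU m K a' b' := by
  unfold bil
  refine Finset.sum_congr rfl fun u hu => Finset.sum_congr rfl fun v hv => ?_
  rw [ha u hu, hb v hv]

theorem bil_conj (UU : Finset ω) (m : ω → ℝ) (K K' : ω → ω → ℂ)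
    (hK : ∀ u ∈ UU, ∀ v ∈ UU, K' u v = conj (K u v)) (a b : ω → ℂ) :
    bil UU m K' (fun u => conj (a u)) (fun u => conj (b u)) = conj (bil UU m K a b) := by
  unfold bil
  rw [map_sum]
  refine Finset.sum_congr rfl fun u hu => ?_
  rw [map_sum]
  refine Finset.sum_congr rfl fun v hv => ?_
  rw [hK u hu v hv]
  simp only [map_mul, Complex.conj_ofReal]

theorem nsq_nonneg (UU : Finset ω) (m : ω → ℝ) (hm : ∀ u ∈ UU, 0 ≤ m u) (a : ω → ℂ) :
    0 ≤ nsq UU m a :=
  Finset.sum_nonneg fun u hu => mul_nonneg (hm u hu) (sq_nonneg _)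

/-- real vectors -/
def rv (x : ω → ℝ) : ω → ℂ := fun u => (x u : ℂ)

theorem nsq_rv (UU : Finset ω) (m : ω → ℝ) (x : ω → ℝ) :
    nsq UU m (rv x) = ∑ u ∈ UU, m u * x u ^ 2 := by
  unfold nsq rv
  refine Finset.sum_congr rfl fun u _ => ?_
  rw [Complex.norm_real, Real.norm_eq_abs, sq_abs]

/-- polarisation for real vectors -/
theorem bil_pol (UU : Finset ω) (m : ω → ℝ) (K : ω → ω → ℂ)
    (hK : ∀ u ∈ UU, ∀ v ∈ UU, K u v = K v u) (x y : ω → ℝ) :
    bil UU m K (rv x) (rv y) = (1 / 4 : ℂ) * (bil UU m K (rv (fun u => x u + y u)) (rv (fun u => x u + y u))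
      - bil UU m K (rv (fun u => x u - y u)) (rv (fun u => x u - y u))) := by
  have h1 : rv (fun u => x u + y u) = fun u => rv x u + rv y u := by
    funext u; simp [rv]
  have h2 : rv (fun u => x u - y u) = fun u => rv x u + (-1 : ℂ) * rv y u := by
    funext u; simp [rv]; ring
  rw [h1, h2, bil_add_left, bil_add_right, bil_add_right, bil_add_left, bil_add_right,
    bil_add_right, bil_smul_left, bil_smul_right, bil_smul_right, bil_smul_left,
    bil_comm UU m K hK (rv y) (rv x)]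
  ring

theorem bil_rv_le (UU : Finset ω) (m : ω → ℝ) (K : ω → ω → ℂ)
    (hK : ∀ u ∈ UU, ∀ v ∈ UU, K u v = K v u) {Λ : ℝ}
    (hΛ : ∀ x : ω → ℝ, ‖bil UU m K (rv x) (rv x)‖ ≤ Λ * ∑ u ∈ UU, m u * x u ^ 2) (x y : ω → ℝ) :
    ‖bil UU m K (rv x) (rv y)‖ ≤ Λ / 2 * (∑ u ∈ UU, m u * x u ^ 2 + ∑ u ∈ UU, m u * y u ^ 2) := by
  rw [bil_pol UU m K hK, norm_mul]
  have h1 := hΛ (fun u => x u + y u)
  have h2 := hΛ (fun u => x u - y u)
  have h3 : ‖(1 / 4 : ℂ)‖ = 1 / 4 := by norm_num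
  have h4 : ∑ u ∈ UU, m u * (x u + y u) ^ 2 + ∑ u ∈ UU, m u * (x u - y u) ^ 2
      = 2 * (∑ u ∈ UU, m u * x u ^ 2 + ∑ u ∈ UU, m u * y u ^ 2) := by
    rw [← Finset.sum_add_distrib, ← Finset.sum_add_distrib, Finset.mul_sum]
    refine Finset.sum_congr rfl fun u _ => ?_
    ring
  rw [h3]
  have h5 := norm_sub_le (bil UU m K (rv (fun u => x u + y u)) (rv (fun u => x u + y u)))
    (bil UU m K (rv (fun u => x u - y u)) (rv (fun u => x u - y u)))
  have h6 : Λ * ∑ u ∈ UU, m u * (x u + y u) ^ 2 + Λ * ∑ u ∈ UU, m u * (x u - y u) ^ 2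
      = Λ * (2 * (∑ u ∈ UU, m u * x u ^ 2 + ∑ u ∈ UU, m u * y u ^ 2)) := by
    rw [← mul_add, h4]
  nlinarith [h1, h2, h5, h6]

theorem bil_le (UU : Finset ω) (m : ω → ℝ) (K : ω → ω → ℂ)
    (hK : ∀ u ∈ UU, ∀ v ∈ UU, K u v = K v u) {Λ : ℝ}
    (hΛ : ∀ x : ω → ℝ, ‖bil UU m K (rv x) (rv x)‖ ≤ Λ * ∑ u ∈ UU, m u * x u ^ 2) (a b : ω → ℂ) :
    ‖bil UU m K a b‖ ≤ Λ * (nsq UU m a + nsq UU m b) := by
  set a1 : ω → ℝ := fun u => (a u).re with ha1
  set a2 : ω → ℝ := fun u => (a u).im with ha2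
  set b1 : ω → ℝ := fun u => (b u).re with hb1
  set b2 : ω → ℝ := fun u => (b u).im with hb2
  have ha : a = fun u => rv a1 u + Complex.I * rv a2 u := by
    funext u
    simp only [rv, ha1, ha2]
    rw [mul_comm]
    exact (Complex.re_add_im (a u)).symm
  have hb : b = fun u => rv b1 u + Complex.I * rv b2 u := by
    funext u
    simp only [rv, hb1, hb2]
    rw [mul_comm]
    exact (Complex.re_add_im (b u)).symm
  have hna : nsq UU m a = ∑ u ∈ UU, m u * a1 u ^ 2 + ∑ u ∈ UU, m u * a2 u ^ 2 := by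
    unfold nsq
    rw [← Finset.sum_add_distrib]
    refine Finset.sum_congr rfl fun u _ => ?_
    rw [← Complex.normSq_eq_norm_sq, Complex.normSq_apply]
    ring
  have hnb : nsq UU m b = ∑ u ∈ UU, m u * b1 u ^ 2 + ∑ u ∈ UU, m u * b2 u ^ 2 := by
    unfold nsq
    rw [← Finset.sum_add_distrib]
    refine Finset.sum_congr rfl fun u _ => ?_
    rw [← Complex.normSq_eq_norm_sq, Complex.normSq_apply]
    ring
  have hexp : bil UU m K a b = bil UU m K (rv a1) (rv b1) + Complex.I * bil UU m K (rv a1) (rv b2)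
      + (Complex.I * bil UU m K (rv a2) (rv b1)
        + Complex.I * (Complex.I * bil UU m K (rv a2) (rv b2))) := by
    conv_lhs => rw [ha, hb]
    rw [bil_add_left, bil_add_right, bil_add_right, bil_smul_left, bil_smul_left, bil_smul_right,
      bil_smul_right]
  have h11 := bil_rv_le UU m K hK hΛ a1 b1
  have h12 := bil_rv_le UU m K hK hΛ a1 b2
  have h21 := bil_rv_le UU m K hK hΛ a2 b1
  have h22 := bil_rv_le UU m K hK hΛ a2 b2
  have hI : ∀ z : ℂ, ‖Complex.I * z‖ = ‖z‖ := fun z => by rw [norm_mul, Complex.norm_I, one_mul]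
  rw [hexp, hna, hnb]
  have e1 := norm_add_le (bil UU m K (rv a1) (rv b1) + Complex.I * bil UU m K (rv a1) (rv b2))
    (Complex.I * bil UU m K (rv a2) (rv b1) + Complex.I * (Complex.I * bil UU m K (rv a2) (rv b2)))
  have e2 := norm_add_le (bil UU m K (rv a1) (rv b1)) (Complex.I * bil UU m K (rv a1) (rv b2))
  have e3 := norm_add_le (Complex.I * bil UU m K (rv a2) (rv b1))
    (Complex.I * (Complex.I * bil UU m K (rv a2) (rv b2)))
  rw [hI] at e2
  rw [hI, hI, hI] at e3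
  nlinarith [e1, e2, e3, h11, h12, h21, h22]

/-- scaled form -/
theorem bil_le_scaled (UU : Finset ω) (m : ω → ℝ) (K : ω → ω → ℂ)
    (hK : ∀ u ∈ UU, ∀ v ∈ UU, K u v = K v u) {Λ : ℝ}
    (hΛ : ∀ x : ω → ℝ, ‖bil UU m K (rv x) (rv x)‖ ≤ Λ * ∑ u ∈ UU, m u * x u ^ 2) (a b : ω → ℂ)
    {s : ℝ} (hs : 0 < s) :
    ‖bil UU m K a b‖ ≤ Λ * (s * nsq UU m a + s⁻¹ * nsq UU m b) := by
  have hr : 0 < Real.sqrt s := Real.sqrt_pos.2 hs
  have hr2 : Real.sqrt s ^ 2 = s := Real.sq_sqrt hs.le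
  have h1 := bil_le UU m K hK hΛ (fun u => ((Real.sqrt s : ℝ) : ℂ) * a u)
    (fun u => (((Real.sqrt s)⁻¹ : ℝ) : ℂ) * b u)
  rw [bil_smul_left, bil_smul_right] at h1
  have h2 : ((Real.sqrt s : ℝ) : ℂ) * ((((Real.sqrt s)⁻¹ : ℝ) : ℂ) * bil UU m K a b)
      = bil UU m K a b := by
    rw [← mul_assoc, ← Complex.ofReal_mul, mul_inv_cancel₀ hr.ne', Complex.ofReal_one, one_mul]
  have h3 : nsq UU m (fun u => ((Real.sqrt s : ℝ) : ℂ) * a u) = s * nsq UU m a := by
    unfold nsq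
    rw [Finset.mul_sum]
    refine Finset.sum_congr rfl fun u _ => ?_
    rw [norm_mul, Complex.norm_real, Real.norm_eq_abs, abs_of_pos hr, mul_pow, hr2]
    ring
  have h4 : nsq UU m (fun u => (((Real.sqrt s)⁻¹ : ℝ) : ℂ) * b u) = s⁻¹ * nsq UU m b := by
    unfold nsq
    rw [Finset.mul_sum]
    refine Finset.sum_congr rfl fun u _ => ?_
    rw [norm_mul, Complex.norm_real, Real.norm_eq_abs, abs_of_pos (inv_pos.2 hr), mul_pow,
      inv_pow, hr2]
    ring
  rw [h2, h3, h4] at h1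
  exact h1

/-- extension of vectors by zero -/
theorem ext_aux (UU : Finset ω) : ∃ ext : (↥UU → ℝ) → ω → ℝ,
    (∀ (x : ↥UU → ℝ) (u : ω) (h : u ∈ UU), ext x u = x ⟨u, h⟩) ∧
    ∀ u : ω, Continuous fun x : ↥UU → ℝ => ext x u := by
  classical
  refine ⟨fun x u => if h : u ∈ UU then x ⟨u, h⟩ else 0, ?_, ?_⟩
  · intro x u h
    simp [h]
  · intro u
    by_cases h : u ∈ UU
    · simp only [h, dif_pos]
      exact continuous_apply _
    · simp only [h, dif_neg, not_false_iff]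
      exact continuous_const

theorem ball_compact (UU : Finset ω) (m : ω → ℝ) (hm : ∀ u ∈ UU, 0 < m u)
    (ext : (↥UU → ℝ) → ω → ℝ)
    (hext : ∀ (x : ↥UU → ℝ) (u : ω) (h : u ∈ UU), ext x u = x ⟨u, h⟩)
    (hcont : ∀ u : ω, Continuous fun x : ↥UU → ℝ => ext x u) :
    IsCompact {x : ↥UU → ℝ | ∑ u ∈ UU, m u * ext x u ^ 2 ≤ 1} := by
  have hSc : IsClosed {x : ↥UU → ℝ | ∑ u ∈ UU, m u * ext x u ^ 2 ≤ 1} := by
    apply isClosed_le _ continuous_const
    exact continuous_finsetSum _ fun u _ => continuous_const.mul ((hcont u).pow 2)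
  refine (isCompact_univ_pi
    (s := fun u : ↥UU => Set.Icc (-((m u)⁻¹ + 1)) ((m u)⁻¹ + 1)) fun u => isCompact_Icc).of_isClosed_subset
    hSc ?_
  intro x hx u _
  have h1 : m u * ext x u ^ 2 ≤ 1 := by
    refine le_trans ?_ hx
    exact Finset.single_le_sum (f := fun v => m v * ext x v ^ 2)
      (fun v hv => mul_nonneg (hm v hv).le (sq_nonneg _)) u.2
  rw [hext x u u.2] at h1
  have hmu := hm u u.2
  have h2 : x u ^ 2 ≤ (m u)⁻¹ := by
    rw [← one_div, le_div_iff₀ hmu]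
    have h6 : m u * x u ^ 2 ≤ 1 := h1
    linarith
  have h3 : 0 < (m u)⁻¹ := inv_pos.2 hmu
  have h4 : |x u| ≤ (m u)⁻¹ + 1 := by
    apply abs_le_of_sq_le_sq _ (by positivity)
    nlinarith
  exact abs_le.1 h4

/-- existence of an extremal vector -/
theorem ext_exists (UU : Finset ω) (m : ω → ℝ) (hm : ∀ u ∈ UU, 0 < m u) (J : Finset ι)
    (hJ : J.Nonempty) (K : ι → ω → ω → ℂ) :
    ∃ i ∈ J, ∃ x : ω → ℝ, (∑ u ∈ UU, m u * x u ^ 2 ≤ 1) ∧
      ∀ j ∈ J, ∀ y : ω → ℝ, (∑ u ∈ UU, m u * y u ^ 2 ≤ 1) →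
        ‖bil UU m (K j) (rv y) (rv y)‖ ≤ ‖bil UU m (K i) (rv x) (rv x)‖ := by
  classical
  obtain ⟨ext, hext, hcont⟩ := ext_aux UU
  have hcpt := ball_compact UU m hm ext hext hcont
  have hSne : Set.Nonempty {x : ↥UU → ℝ | ∑ u ∈ UU, m u * ext x u ^ 2 ≤ 1} := by
    refine ⟨fun _ => 0, ?_⟩
    show ∑ u ∈ UU, m u * ext (fun _ => 0) u ^ 2 ≤ 1
    rw [Finset.sum_eq_zero]
    · exact zero_le_one
    · intro u hu
      rw [hext (fun _ => 0) u hu]
      simp
  have hF : ∀ j : ι, Continuous fun x : ↥UU → ℝ => ‖bil UU m (K j) (rv (ext x)) (rv (ext x))‖ := by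
    intro j
    apply Continuous.norm
    unfold bil rv
    refine continuous_finsetSum _ fun u _ => continuous_finsetSum _ fun v _ => ?_
    exact (((continuous_const.mul (Complex.continuous_ofReal.comp (hcont u))).mul
      (Complex.continuous_ofReal.comp (hcont v))).mul continuous_const)
  have hmax : ∀ j : ι, ∃ x : ↥UU → ℝ, (∑ u ∈ UU, m u * ext x u ^ 2 ≤ 1) ∧
      ∀ y : ↥UU → ℝ, (∑ u ∈ UU, m u * ext y u ^ 2 ≤ 1) →
      ‖bil UU m (K j) (rv (ext y)) (rv (ext y))‖ ≤ ‖bil UU m (K j) (rv (ext x)) (rv (ext x))‖ := by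
    intro j
    obtain ⟨x, hx, hx2⟩ := hcpt.exists_isMaxOn hSne (hF j).continuousOn
    exact ⟨x, hx, fun y hy => hx2 hy⟩
  choose X hXS hXmax using hmax
  obtain ⟨i, hi, hi2⟩ := Finset.exists_max_image J
    (fun j => ‖bil UU m (K j) (rv (ext (X j))) (rv (ext (X j)))‖) hJ
  refine ⟨i, hi, ext (X i), hXS i, ?_⟩
  intro j hj y hy
  have h1 : ∀ u ∈ UU, rv y u = rv (ext (fun v : ↥UU => y v)) u := by
    intro u hu
    unfold rv
    rw [hext (fun v : ↥UU => y v) u hu]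
  rw [bil_congr UU m (K j) h1 h1]
  refine le_trans (hXmax j (fun v : ↥UU => y v) ?_) (hi2 j hj)
  have h2 : ∑ u ∈ UU, m u * ext (fun v : ↥UU => y v) u ^ 2 = ∑ u ∈ UU, m u * y u ^ 2 :=
    Finset.sum_congr rfl fun u hu => by rw [hext (fun v : ↥UU => y v) u hu]
  rw [h2]
  exact hy

/-- the sup norm of the extremal vector -/
theorem lin_zero {b c : ℝ} (h : ∀ t : ℝ, t * b ≤ t ^ 2 * c) : b = 0 := by
  by_contra hb
  have h1 := h (b / (|c| + 1))
  have hc : 0 < |c| + 1 := by positivity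
  have h2 : b / (|c| + 1) * b = b ^ 2 / (|c| + 1) := by ring
  have h3 : (b / (|c| + 1)) ^ 2 * c = b ^ 2 / (|c| + 1) * (c / (|c| + 1)) := by
    field_simp
  rw [h2, h3] at h1
  have h4 : 0 < b ^ 2 / (|c| + 1) := by positivity
  have h5 : c / (|c| + 1) < 1 := by
    rw [div_lt_one hc]
    linarith [le_abs_self c]
  nlinarith

theorem ext_sup (UU : Finset ω) (m : ω → ℝ) (hm : ∀ u ∈ UU, 0 < m u)
    (hM : ∑ u ∈ UU, m u ≤ 1) (K : ω → ω → ℂ) (hK : ∀ u ∈ UU, ∀ v ∈ UU, K u v = K v u) {K0 : ℝ}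
    (hK0 : ∀ u ∈ UU, ∀ v ∈ UU, ‖K u v‖ ≤ K0) (hK00 : 0 ≤ K0) (x : ω → ℝ)
    (hx : ∑ u ∈ UU, m u * x u ^ 2 ≤ 1)
    (hmax : ∀ y : ω → ℝ, ‖bil UU m K (rv y) (rv y)‖
      ≤ ‖bil UU m K (rv x) (rv x)‖ * ∑ u ∈ UU, m u * y u ^ 2) :
    ∀ u ∈ UU, ‖bil UU m K (rv x) (rv x)‖ * |x u| ≤ K0 := by
  classical
  set Λ := ‖bil UU m K (rv x) (rv x)‖ with hΛ
  intro u₀ hu₀
  rcases (norm_nonneg (bil UU m K (rv x) (rv x))).eq_or_lt with h0 | h0
  · rw [← hΛ] at h0
    rw [← h0, zero_mul]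
    exact hK00
  rw [← hΛ] at h0
  have hne : bil UU m K (rv x) (rv x) ≠ 0 := fun h => by
    rw [hΛ, h, norm_zero] at h0
    exact lt_irrefl _ h0
  -- the phase
  obtain ⟨z, hz1, hz2⟩ : ∃ z : ℂ, ‖z‖ = 1 ∧ z * bil UU m K (rv x) (rv x) = (Λ : ℂ) := by
    refine ⟨(Λ : ℂ) / bil UU m K (rv x) (rv x), ?_, ?_⟩
    · rw [norm_div, Complex.norm_real, Real.norm_eq_abs, abs_of_pos h0, ← hΛ, div_self h0.ne']
    · rw [div_mul_cancel₀ _ hne]
  have hre : ∀ w : ℂ, (z * w).re ≤ ‖w‖ := fun w => by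
    have h1 := Complex.re_le_norm (z * w)
    rwa [norm_mul, hz1, one_mul] at h1
  have hsx : ∑ u ∈ UU, m u * x u ^ 2 = 1 := by
    have h1 := hmax x
    rw [← hΛ] at h1
    apply le_antisymm hx
    by_contra hcon
    push Not at hcon
    nlinarith
  set e : ω → ℝ := fun u => if u = u₀ then 1 else 0 with he
  have hcoef : m u₀ * (Λ * x u₀) = (z * bil UU m K (rv x) (rv e)).re := by
    have h1 : ∀ t : ℝ, t * (2 * ((z * bil UU m K (rv x) (rv e)).re - m u₀ * (Λ * x u₀))) ≤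
        t ^ 2 * (Λ * m u₀ - (z * bil UU m K (rv e) (rv e)).re) := by
      intro t
      have h2 := hmax (fun u => x u + t * e u)
      have h3 : rv (fun u => x u + t * e u) = fun u => rv x u + (t : ℂ) * rv e u := by
        funext u
        simp [rv]
      have h4 : bil UU m K (rv (fun u => x u + t * e u)) (rv (fun u => x u + t * e u)) =
          bil UU m K (rv x) (rv x) + 2 * (t : ℂ) * bil UU m K (rv x) (rv e)
            + (t : ℂ) ^ 2 * bil UU m K (rv e) (rv e) := by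
        rw [h3, bil_add_left, bil_add_right, bil_add_right, bil_smul_left, bil_smul_left,
          bil_smul_right, bil_smul_right, bil_comm UU m K hK (rv e) (rv x)]
        ring
      have h5 : ∑ u ∈ UU, m u * (x u + t * e u) ^ 2 = 1 + 2 * t * (m u₀ * x u₀) + t ^ 2 * m u₀ := by
        have h6 : ∀ u ∈ UU, m u * (x u + t * e u) ^ 2 = m u * x u ^ 2
            + if u = u₀ then (2 * t * (m u₀ * x u₀) + t ^ 2 * m u₀) else 0 := by
          intro u _
          simp only [he]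
          split_ifs with h
          · rw [h]; ring
          · ring
        rw [Finset.sum_congr rfl h6, Finset.sum_add_distrib, hsx, Finset.sum_ite_eq' UU u₀,
          if_pos hu₀]
        ring
      have h7 := hre (bil UU m K (rv (fun u => x u + t * e u)) (rv (fun u => x u + t * e u)))
      rw [h5] at h2
      have h8 : (z * bil UU m K (rv (fun u => x u + t * e u)) (rv (fun u => x u + t * e u))).re
          = Λ + 2 * t * (z * bil UU m K (rv x) (rv e)).re
            + t ^ 2 * (z * bil UU m K (rv e) (rv e)).re := by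
        rw [h4]
        have h9 : z * (bil UU m K (rv x) (rv x) + 2 * (t : ℂ) * bil UU m K (rv x) (rv e)
            + (t : ℂ) ^ 2 * bil UU m K (rv e) (rv e)) = ((Λ : ℝ) : ℂ)
            + ((2 * t : ℝ) : ℂ) * (z * bil UU m K (rv x) (rv e))
            + ((t ^ 2 : ℝ) : ℂ) * (z * bil UU m K (rv e) (rv e)) := by
          rw [← hz2]
          push_cast
          ring
        rw [h9, Complex.add_re, Complex.add_re, Complex.re_ofReal_mul, Complex.re_ofReal_mul,
          Complex.ofReal_re]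
      rw [h8] at h7
      nlinarith [h7, h2]
    have h10 := lin_zero h1
    linarith
  have hbe : bil UU m K (rv x) (rv e) = ∑ u ∈ UU, (m u : ℂ) * (m u₀ : ℂ) * (x u : ℂ) * K u u₀ := by
    unfold bil
    refine Finset.sum_congr rfl fun u _ => ?_
    rw [Finset.sum_eq_single u₀]
    · simp [rv, he]
    · intro v _ hv
      simp [rv, he, hv]
    · intro h
      exact absurd hu₀ h
  have hb : ‖bil UU m K (rv x) (rv e)‖ ≤ m u₀ * K0 := by
    rw [hbe]
    have hm0 := hm u₀ hu₀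
    calc ‖∑ u ∈ UU, (m u : ℂ) * (m u₀ : ℂ) * (x u : ℂ) * K u u₀‖
        ≤ ∑ u ∈ UU, ‖(m u : ℂ) * (m u₀ : ℂ) * (x u : ℂ) * K u u₀‖ := norm_sum_le _ _
      _ ≤ ∑ u ∈ UU, (m u₀ * K0) * (m u * ((1 + x u ^ 2) / 2)) := by
          refine Finset.sum_le_sum fun u hu => ?_
          rw [norm_mul, norm_mul, norm_mul, Complex.norm_real, Complex.norm_real, Complex.norm_real,
            Real.norm_eq_abs, Real.norm_eq_abs, Real.norm_eq_abs, abs_of_pos (hm u hu),
            abs_of_pos hm0]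
          have h1 := hK0 u hu u₀ hu₀
          have h2 : |x u| ≤ (1 + x u ^ 2) / 2 := by
            rw [← sq_abs]
            nlinarith [sq_nonneg (|x u| - 1)]
          have h3 : 0 ≤ |x u| := abs_nonneg _
          calc m u * m u₀ * |x u| * ‖K u u₀‖ ≤ m u * m u₀ * |x u| * K0 := by
                apply mul_le_mul_of_nonneg_left h1
                have := (hm u hu).le
                positivity
            _ = (m u₀ * K0) * (m u * |x u|) := by ring
            _ ≤ (m u₀ * K0) * (m u * ((1 + x u ^ 2) / 2)) := by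
                apply mul_le_mul_of_nonneg_left _ (by positivity)
                exact mul_le_mul_of_nonneg_left h2 (hm u hu).le
      _ = (m u₀ * K0) * ((∑ u ∈ UU, m u + ∑ u ∈ UU, m u * x u ^ 2) / 2) := by
          rw [← Finset.mul_sum]
          congr 1
          rw [← Finset.sum_add_distrib, Finset.sum_div]
          refine Finset.sum_congr rfl fun u _ => ?_
          ring
      _ ≤ (m u₀ * K0) * 1 := by
          apply mul_le_mul_of_nonneg_left _ (by positivity)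
          linarith
      _ = m u₀ * K0 := mul_one _
  have hm0 := hm u₀ hu₀
  have h11 : |m u₀ * (Λ * x u₀)| ≤ m u₀ * K0 := by
    rw [hcoef]
    refine le_trans (Complex.abs_re_le_norm _) ?_
    rw [norm_mul, hz1, one_mul]
    exact hb
  rw [abs_mul, abs_mul, abs_of_pos hm0, abs_of_pos h0] at h11
  exact le_of_mul_le_mul_left h11 hm0

end Pool.Agent.LSPB
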