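import Mathlib

/-!
LSP2, part B: positivity in the variable p (abstract form), definitions.
-/

open scoped BigOperators ComplexConjugate

noncomputable section

namespace Pool.Agent.LSPB

variable {ι π ω ν : Type*} [DecidableEq ι] [DecidableEq ω]

/-- mass of the window u -/
def mass (PP : Finset π) (win : π → ω) (wt : π → ℝ) (u : ω) : ℝ :=
  ∑ p ∈ PP with win p = u, wt p

/-- weighted sum of f over the window u -/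
def wsum (PP : Finset π) (win : π → ω) (wt : π → ℝ) (u : ω) (f : π → ℂ) : ℂ :=
  ∑ p ∈ PP with win p = u, (wt p : ℂ) * f p

/-- All hypotheses of part B.
PP = the primes of the band, wt p = 1 / p, UU = the windows, win p = the window of p,
Psi = the primitive characters of conductor at most R (one = the trivial one, cj = conjugation),
ch i p = psi_i(p), NN = the primes N of a short window, cn i N = psi_i(N),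
HH i u v, BB i u = the kernels of the quadratic and of the cross term at the windows,
Q N θ = Q_N(sum_p θ_p T_p y), L N θ = Q_N(y0, sum_p θ_p T_p y), q0 N = Q_N(y0),
sh, shc = the main terms of Q and of L. -/
structure BHyp (PP : Finset π) (UU : Finset ω) (Psi : Finset ι) (NN : Set ν)
    (win : π → ω) (wt : π → ℝ) (one : ι) (cj : ι → ι) (ch : ι → π → ℂ) (cn : ι → ν → ℂ)
    (HH : ι → ω → ω → ℂ) (BB : ι → ω → ℂ) (Q L sh shc : ν → (π → ℝ) → ℝ) (q0 : ν → ℝ)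
    (C K0 eps eta : ℝ) : Prop where
  wt_nonneg : ∀ p ∈ PP, 0 ≤ wt p
  win_mem : ∀ p ∈ PP, win p ∈ UU
  mass_pos : ∀ u ∈ UU, 0 < mass PP win wt u
  mass_le : ∑ u ∈ UU, mass PP win wt u ≤ 1
  one_mem : one ∈ Psi
  ch_one : ∀ p ∈ PP, ch one p = 1
  cn_one : ∀ N ∈ NN, cn one N = 1
  cj_mem : ∀ i ∈ Psi, cj i ∈ Psi
  cj_cj : ∀ i ∈ Psi, cj (cj i) = i
  cj_one : cj one = one
  ch_norm : ∀ i ∈ Psi, ∀ p ∈ PP, ‖ch i p‖ = 1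
  cn_norm : ∀ i ∈ Psi, ∀ N ∈ NN, ‖cn i N‖ = 1
  ch_cj : ∀ i ∈ Psi, ∀ p ∈ PP, ch (cj i) p = conj (ch i p)
  cn_cj : ∀ i ∈ Psi, ∀ N ∈ NN, cn (cj i) N = conj (cn i N)
  orth : ∀ i ∈ Psi, ∀ u ∈ UU,
    ∑ j ∈ Psi.erase i, ‖wsum PP win wt u (fun p => conj (ch i p) * ch j p)‖
      ≤ eps * mass PP win wt u
  real_sign : ∀ i ∈ Psi, i ≠ one → cj i = i → ∀ N ∈ NN, ∃ N' ∈ NN, cn i N' = - cn i N
  HH_symm : ∀ i ∈ Psi, ∀ u ∈ UU, ∀ v ∈ UU, HH i u v = HH i v u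
  HH_cj : ∀ i ∈ Psi, ∀ u ∈ UU, ∀ v ∈ UU, HH (cj i) u v = conj (HH i u v)
  HH_le : ∀ i ∈ Psi, ∀ u ∈ UU, ∀ v ∈ UU, ‖HH i u v‖ ≤ K0
  BB_cj : ∀ i ∈ Psi, ∀ u ∈ UU, BB (cj i) u = conj (BB i u)
  BB_le : ∀ i ∈ Psi, ∀ u ∈ UU, ‖BB i u‖ ≤ K0
  C_ge : 1 ≤ C
  K0_ge : 1 ≤ K0
  eps_pos : 0 < eps
  eps_le : eps ≤ 1 / 64
  eta_nonneg : 0 ≤ eta
  eta_le : eta * K0 ^ 2 ≤ 1 / 16
  q0_le : ∀ N ∈ NN, q0 N ≤ C
  pos : ∀ N ∈ NN, ∀ θ : π → ℝ, (∀ p ∈ PP, |θ p| ≤ 1) → ∀ s : ℝ,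
    0 ≤ s ^ 2 * q0 N + 2 * s * L N θ + Q N θ
  expQ : ∀ N ∈ NN, ∀ θ : π → ℝ, (∀ p ∈ PP, |θ p| ≤ 1) →
    |Q N θ - sh N θ - (∑ i ∈ Psi, conj (cn i N) * ∑ u ∈ UU, ∑ v ∈ UU,
      wsum PP win wt u (fun p => (θ p : ℂ) * ch i p)
        * wsum PP win wt v (fun p => (θ p : ℂ) * ch i p) * HH i u v).re| ≤ eta
  expL : ∀ N ∈ NN, ∀ θ : π → ℝ, (∀ p ∈ PP, |θ p| ≤ 1) →
    |L N θ - shc N θ - (∑ i ∈ Psi, conj (cn i N) * ∑ u ∈ UU,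
      wsum PP win wt u (fun p => (θ p : ℂ) * ch i p) * BB i u).re| ≤ eta
  sh_le : ∀ N ∈ NN, ∀ θ : π → ℝ, (∀ p ∈ PP, |θ p| ≤ 1) →
    sh N θ ≤ C * ∑ p ∈ PP, wt p * θ p ^ 2 + eta
  shc_le : ∀ N ∈ NN, ∀ θ : π → ℝ, (∀ p ∈ PP, |θ p| ≤ 1) →
    (∀ u ∈ UU, ∑ p ∈ PP with win p = u, wt p * θ p = 0) →
    |shc N θ| ≤ C * Real.sqrt (∑ p ∈ PP, wt p * θ p ^ 2) + eta

end Pool.Agent.LSPB
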