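import Pool.Agent.Lib_helper14.LSPB.Rad

/-!
Part B: the cross term and the final theorem.
-/

open scoped BigOperators ComplexConjugate

noncomputable section

namespace Pool.Agent.LSPB

variable {ι π ω ν : Type*} [DecidableEq ι] [DecidableEq ω]

section

variable {PP : Finset π} {UU : Finset ω} {Psi : Finset ι} {NN : Set ν}
  {win : π → ω} {wt : π → ℝ} {one : ι} {cj : ι → ι} {ch : ι → π → ℂ} {cn : ι → ν → ℂ}
  {HH : ι → ω → ω → ℂ} {BB : ι → ω → ℂ} {Q L sh shc : ν → (π → ℝ) → ℝ} {q0 : ν → ℝ}
  {C K0 eps eta : ℝ}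

/-- phases of the cross term -/
theorem phase2 (h : BHyp PP UU Psi NN win wt one cj ch cn HH BB Q L sh shc q0 C K0 eps eta)
    {N : ν} (hN : N ∈ NN) {i : ι} (hi : i ∈ Psi) {u : ω} (hu : u ∈ UU) :
    ∃ z : ℂ, ‖z‖ = 1 ∧ conj (cn i N) * z * BB i u = ((‖BB i u‖ : ℝ) : ℂ) ∧
      (cj i = i → conj z = z) := by
  by_cases hb : BB i u = 0
  · refine ⟨1, norm_one, ?_, fun _ => map_one _⟩
    rw [hb]
    simp
  · have hcn0 : cn i N ≠ 0 := by
      intro h1
      have h2 := h.cn_norm i hi N hN
      rw [h1, norm_zero] at h2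
      exact zero_ne_one h2
    have hc0 : conj (cn i N) * BB i u ≠ 0 := by
      apply mul_ne_zero _ hb
      rw [Ne, map_eq_zero]
      exact hcn0
    refine ⟨((‖BB i u‖ : ℝ) : ℂ) / (conj (cn i N) * BB i u), ?_, ?_, ?_⟩
    · rw [norm_div, Complex.norm_real, norm_mul, RCLike.norm_conj, h.cn_norm i hi N hN, one_mul,
        norm_norm, div_self (norm_ne_zero_iff.2 hb)]
    · have h1 : conj (cn i N) * (((‖BB i u‖ : ℝ) : ℂ) / (conj (cn i N) * BB i u)) * BB i u
          = ((‖BB i u‖ : ℝ) : ℂ) * ((conj (cn i N) * BB i u) / (conj (cn i N) * BB i u)) := by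
        ring
      rw [h1, div_self hc0, mul_one]
    · intro hr
      have h1 := h.BB_cj i hi u hu
      rw [hr] at h1
      have h2 := conj_eq_of_cj h hi hr hN
      rw [map_div₀, Complex.conj_ofReal, map_mul, Complex.conj_conj, ← h1]
      conv_lhs => rw [← h2]

/-- real part of the main part of the cross term at one window -/
theorem cross_main (h : BHyp PP UU Psi NN win wt one cj ch cn HH BB Q L sh shc q0 C K0 eps eta)
    {N : ν} (hN : N ∈ NN) {sel : ω → ι} {z : ω → ℂ} {u : ω} (hu : u ∈ UU)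
    (hi : sel u ∈ Psi.erase one)
    (hz2 : conj (cn (sel u) N) * z u * BB (sel u) u = ((‖BB (sel u) u‖ : ℝ) : ℂ))
    (hz3 : cj (sel u) = sel u → conj (z u) = z u) :
    (∑ j ∈ Psi.erase one, conj (cn j N) * (cc cj sel z j u * BB j u)).re = ‖BB (sel u) u‖ := by
  have hiP := Finset.mem_of_mem_erase hi
  have hcji : cj (sel u) ∈ Psi := h.cj_mem _ hiP
  have hcj1 : cj (sel u) ≠ one := by
    intro h1
    have h2 := h.cj_cj _ hiP
    rw [h1, h.cj_one] at h2
    exact Finset.ne_of_mem_erase hi h2.symm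
  have hcje : cj (sel u) ∈ Psi.erase one := Finset.mem_erase.2 ⟨hcj1, hcji⟩
  have h1 : ∑ j ∈ Psi.erase one, conj (cn j N) * (cc cj sel z j u * BB j u)
      = ∑ j ∈ Psi.erase one, ((if j = sel u then conj (cn (sel u) N) * z u * BB (sel u) u / 2 else 0)
        + (if j = cj (sel u) then conj (conj (cn (sel u) N) * z u * BB (sel u) u / 2) else 0)) := by
    refine Finset.sum_congr rfl fun j _ => ?_
    unfold cc
    have h2 : (conj (2 : ℂ)) = 2 := Complex.conj_ofNat 2
    by_cases hj : j = sel u
    · by_cases hj2 : j = cj (sel u)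
      · have hr : cj (sel u) = sel u := by rw [← hj2, hj]
        have h3 := h.BB_cj _ hiP u hu
        rw [hr] at h3
        have h4 := conj_eq_of_cj h hiP hr hN
        rw [if_pos hj, if_pos hj2, if_pos hj, if_pos hj2, hj, map_div₀, map_mul, map_mul,
          Complex.conj_conj, h2, ← h3, hz3 hr, h4]
        ring
      · rw [if_pos hj, if_neg hj2, if_pos hj, if_neg hj2, hj]
        ring
    · by_cases hj2 : j = cj (sel u)
      · rw [if_neg hj, if_pos hj2, if_neg hj, if_pos hj2, hj2, h.BB_cj _ hiP u hu,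
          h.cn_cj _ hiP N hN, map_div₀, map_mul, map_mul, Complex.conj_conj, h2]
        ring
      · rw [if_neg hj, if_neg hj2, if_neg hj, if_neg hj2]
        ring
  rw [h1, Finset.sum_add_distrib, Finset.sum_ite_eq' _ (sel u), Finset.sum_ite_eq' _ (cj (sel u)),
    if_pos hi, if_pos hcje, Complex.add_re, Complex.conj_re, hz2]
  have h5 : ((‖BB (sel u) u‖ : ℝ) : ℂ) / 2 = ((‖BB (sel u) u‖ / 2 : ℝ) : ℂ) := by
    push_cast
    ring
  rw [h5, Complex.ofReal_re]
  ring

/-- quadratic terms of the characters other than the trivial one -/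
theorem quad_le (h : BHyp PP UU Psi NN win wt one cj ch cn HH BB Q L sh shc q0 C K0 eps eta)
    {Λ : ℝ} (hΛ0 : 0 ≤ Λ)
    (hΛ : ∀ j ∈ Psi.erase one, ∀ x : ω → ℝ, ‖bil UU (mass PP win wt) (HH j) (rv x) (rv x)‖
      ≤ Λ * ∑ u ∈ UU, mass PP win wt u * x u ^ 2)
    {N : ν} (hN : N ∈ NN) (a : ι → ω → ℂ) {g : ω → ℝ}
    (hg : ∀ u ∈ UU, ∑ j ∈ Psi.erase one, ‖a j u‖ ≤ g u) :
    |(∑ j ∈ Psi.erase one, conj (cn j N) * bil UU (mass PP win wt) (HH j) (a j) (a j)).re|
      ≤ 2 * Λ * ∑ u ∈ UU, mass PP win wt u * g u ^ 2 := by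
  have hm : ∀ u ∈ UU, 0 ≤ mass PP win wt u := fun u _ => mass_nonneg h u
  refine le_trans (Complex.abs_re_le_norm _) (le_trans (norm_sum_le _ _) ?_)
  calc ∑ j ∈ Psi.erase one, ‖conj (cn j N) * bil UU (mass PP win wt) (HH j) (a j) (a j)‖
      ≤ ∑ j ∈ Psi.erase one, 2 * Λ * nsq UU (mass PP win wt) (a j) := by
        refine Finset.sum_le_sum fun j hj => ?_
        have hjP := Finset.mem_of_mem_erase hj
        rw [norm_mul, RCLike.norm_conj, h.cn_norm j hjP N hN, one_mul]
        have h1 := bil_le UU _ _ (h.HH_symm j hjP) (hΛ j hj) (a j) (a j)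
        linarith
    _ = 2 * Λ * ∑ j ∈ Psi.erase one, nsq UU (mass PP win wt) (a j) := by
        rw [← Finset.mul_sum]
    _ ≤ 2 * Λ * ∑ u ∈ UU, mass PP win wt u * (∑ j ∈ Psi.erase one, ‖a j u‖) ^ 2 :=
        mul_le_mul_of_nonneg_left (nsq_sum_le hm _ _) (by positivity)
    _ ≤ 2 * Λ * ∑ u ∈ UU, mass PP win wt u * g u ^ 2 := by
        apply mul_le_mul_of_nonneg_left _ (by positivity)
        refine Finset.sum_le_sum fun u hu => ?_
        apply mul_le_mul_of_nonneg_left _ (hm u hu)
        have h2 : 0 ≤ ∑ j ∈ Psi.erase one, ‖a j u‖ := Finset.sum_nonneg fun _ _ => norm_nonneg _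
        have h3 := hg u hu
        nlinarith

/-- the l2 norm of the largest kernel of the cross term -/
theorem cross_bound (h : BHyp PP UU Psi NN win wt one cj ch cn HH BB Q L sh shc q0 C K0 eps eta)
    {N : ν} (hN : N ∈ NN) (hne : (Psi.erase one).Nonempty) :
    ∃ β : ω → ℝ, (∀ u ∈ UU, 0 ≤ β u) ∧ (∀ u ∈ UU, ∀ j ∈ Psi.erase one, ‖BB j u‖ ≤ β u) ∧
      ∑ u ∈ UU, mass PP win wt u * β u ^ 2 ≤ 400 * C ^ 2 := by
  classical
  have hΛ := rad_bound h hN hne
  have hC := h.C_ge
  have hK0 := h.K0_ge
  have heps := h.eps_pos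
  have heps2 := h.eps_le
  have hm : ∀ u ∈ UU, 0 ≤ mass PP win wt u := fun u _ => mass_nonneg h u
  have hsel : ∀ u : ω, ∃ i ∈ Psi.erase one, ∀ j ∈ Psi.erase one, ‖BB j u‖ ≤ ‖BB i u‖ := fun u =>
    Finset.exists_max_image (Psi.erase one) (fun j => ‖BB j u‖) hne
  choose sel hselm hselx using hsel
  set β : ω → ℝ := fun u => ‖BB (sel u) u‖ with hβ
  refine ⟨β, fun u _ => norm_nonneg _, fun u _ j hj => hselx u j hj, ?_⟩
  set S := ∑ u ∈ UU, mass PP win wt u * β u ^ 2 with hS
  have hselP : ∀ u, sel u ∈ Psi := fun u => Finset.mem_of_mem_erase (hselm u)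
  have hz : ∀ u : ω, ∃ z : ℂ, u ∈ UU → (‖z‖ = 1 ∧
      conj (cn (sel u) N) * z * BB (sel u) u = ((‖BB (sel u) u‖ : ℝ) : ℂ) ∧
      (cj (sel u) = sel u → conj z = z)) := by
    intro u
    by_cases hu : u ∈ UU
    · obtain ⟨z, hz⟩ := phase2 h hN (hselP u) hu
      exact ⟨z, fun _ => hz⟩
    · exact ⟨0, fun hu' => absurd hu' hu⟩
  choose z hz using hz
  set θ : π → ℝ := tv PP win wt ch sel z β with hθ
  have hs1 : ∀ u ∈ UU, sel u ∈ Psi := fun u _ => hselP u
  have hz1 : ∀ u ∈ UU, ‖z u‖ = 1 := fun u hu => (hz u hu).1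
  have hθK : ∀ p ∈ PP, |θ p| ≤ 2 * K0 := by
    intro p hp
    have h1 := tv_le h hs1 hz1 β hp
    have hu := h.win_mem p hp
    have h2 : |β (win p)| ≤ K0 := by
      rw [abs_of_nonneg (norm_nonneg _)]
      exact h.BB_le _ (hselP _) _ hu
    linarith
  have hmean := tv_mean h sel z β
  have hcs := cross_scaled h hN θ (T := 2 * K0) (by positivity) hθK hmean
  have hW := wt_sum_le h hs1 hz1 β
  rw [← hS, ← hθ] at hW
  set W := ∑ p ∈ PP, wt p * θ p ^ 2 with hWdef
  have hW0 : 0 ≤ W := Finset.sum_nonneg fun p hp => mul_nonneg (h.wt_nonneg p hp) (sq_nonneg _)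
  have hS0 : 0 ≤ S := Finset.sum_nonneg fun u hu => mul_nonneg (hm u hu) (sq_nonneg _)
  -- the quadratic expansion
  set a : ι → ω → ℂ := fun j u => (β u : ℂ) * (cc cj sel z j u
        + dd PP win wt one cj ch sel z j u) with ha
  have hwa : ∀ j ∈ Psi, ∀ u ∈ UU, wsum PP win wt u (fun p => (θ p : ℂ) * ch j p)
      = (mass PP win wt u : ℂ) * a j u := fun j _ u hu => tv_split h β hu (hselP u) j
  have ha1 : ∀ u ∈ UU, a one u = 0 := by
    intro u hu
    have h6 := hwa one h.one_mem u hu
    rw [hθ, tv_one h β hu] at h6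
    have hm' : (mass PP win wt u : ℂ) ≠ 0 := by exact_mod_cast (h.mass_pos u hu).ne'
    exact (mul_eq_zero.1 h6.symm).resolve_left hm'
  have hQT := QT_eq (Psi := Psi) (cn := cn) (HH := HH) (N := N) θ a hwa
  rw [sum_erase_one h _ (by rw [bil_zero_left UU _ _ ha1, mul_zero])] at hQT
  have hga : ∀ u ∈ UU, ∑ j ∈ Psi.erase one, ‖a j u‖ ≤ β u * (1 + 2 * eps) := by
    intro u hu
    have h1 : ∀ j ∈ Psi.erase one, ‖a j u‖ ≤ β u * (‖cc cj sel z j u‖
        + ‖dd PP win wt one cj ch sel z j u‖) := by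
      intro j _
      simp only [ha]
      rw [norm_mul, Complex.norm_real, Real.norm_eq_abs, abs_of_nonneg (norm_nonneg _)]
      exact mul_le_mul_of_nonneg_left (norm_add_le _ _) (norm_nonneg _)
    refine le_trans (Finset.sum_le_sum h1) ?_
    rw [← Finset.mul_sum, Finset.sum_add_distrib]
    apply mul_le_mul_of_nonneg_left _ (norm_nonneg _)
    exact add_le_add (cc_sum (hz1 u hu) _) (dd_sum h hu (hselP u) (hz1 u hu))
  have hq := quad_le h (by positivity) hΛ hN a hga
  have hq2 : ∑ u ∈ UU, mass PP win wt u * (β u * (1 + 2 * eps)) ^ 2 = (1 + 2 * eps) ^ 2 * S := by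
    rw [hS, Finset.mul_sum]
    refine Finset.sum_congr rfl fun u _ => ?_
    ring
  rw [hq2, ← hQT] at hq
  -- the linear expansion
  have hLT : (1 - 2 * eps) * S ≤ LT PP UU Psi win wt ch cn BB N θ := by
    have h1 : LT PP UU Psi win wt ch cn BB N θ
        = ∑ u ∈ UU, mass PP win wt u * (β u * ((∑ j ∈ Psi.erase one, conj (cn j N)
          * (cc cj sel z j u * BB j u)).re + (∑ j ∈ Psi.erase one, conj (cn j N)
          * (dd PP win wt one cj ch sel z j u * BB j u)).re)) := by
      have h2 : LT PP UU Psi win wt ch cn BB N θ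
          = (∑ j ∈ Psi.erase one, conj (cn j N) * ∑ u ∈ UU,
              (mass PP win wt u : ℂ) * a j u * BB j u).re := by
        unfold LT
        rw [sum_erase_one h (fun i => conj (cn i N) * ∑ u ∈ UU,
          wsum PP win wt u (fun p => (θ p : ℂ) * ch i p) * BB i u)]
        · congr 1
          refine Finset.sum_congr rfl fun j hj => ?_
          congr 1
          refine Finset.sum_congr rfl fun u hu => ?_
          rw [hwa j (Finset.mem_of_mem_erase hj) u hu]
        · rw [Finset.sum_eq_zero, mul_zero]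
          intro u hu
          rw [hθ, tv_one h β hu, zero_mul]
      rw [h2]
      have h3 : ∑ j ∈ Psi.erase one, conj (cn j N) * ∑ u ∈ UU,
              (mass PP win wt u : ℂ) * a j u * BB j u
          = ∑ u ∈ UU, ((mass PP win wt u * β u : ℝ) : ℂ) * (∑ j ∈ Psi.erase one, conj (cn j N)
          * (cc cj sel z j u * BB j u) + ∑ j ∈ Psi.erase one, conj (cn j N)
          * (dd PP win wt one cj ch sel z j u * BB j u)) := by
        simp only [Finset.mul_sum, ← Finset.sum_add_distrib]
        rw [Finset.sum_comm]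
        refine Finset.sum_congr rfl fun u _ => Finset.sum_congr rfl fun j _ => ?_
        simp only [ha]
        push_cast
        ring
      rw [h3, Complex.re_sum]
      refine Finset.sum_congr rfl fun u _ => ?_
      rw [Complex.re_ofReal_mul, Complex.add_re]
      ring
    rw [h1, hS, Finset.mul_sum]
    refine Finset.sum_le_sum fun u hu => ?_
    have h4 := cross_main h hN hu (hselm u) (hz u hu).2.1 (hz u hu).2.2
    have h5 : -(2 * eps * β u) ≤ (∑ j ∈ Psi.erase one, conj (cn j N)
          * (dd PP win wt one cj ch sel z j u * BB j u)).re := by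
      have h6 : |(∑ j ∈ Psi.erase one, conj (cn j N)
          * (dd PP win wt one cj ch sel z j u * BB j u)).re| ≤ 2 * eps * β u := by
        refine le_trans (Complex.abs_re_le_norm _) (le_trans (norm_sum_le _ _) ?_)
        calc ∑ j ∈ Psi.erase one, ‖conj (cn j N) * (dd PP win wt one cj ch sel z j u * BB j u)‖
            ≤ ∑ j ∈ Psi.erase one, ‖dd PP win wt one cj ch sel z j u‖ * β u := by
              refine Finset.sum_le_sum fun j hj => ?_
              rw [norm_mul, norm_mul, RCLike.norm_conj,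
                h.cn_norm j (Finset.mem_of_mem_erase hj) N hN, one_mul]
              exact mul_le_mul_of_nonneg_left (hselx u j hj) (norm_nonneg _)
          _ = (∑ j ∈ Psi.erase one, ‖dd PP win wt one cj ch sel z j u‖) * β u := by
              rw [Finset.sum_mul]
          _ ≤ 2 * eps * β u :=
              mul_le_mul_of_nonneg_right (dd_sum h hu (hselP u) (hz1 u hu)) (norm_nonneg _)
      exact (abs_le.1 h6).1
    rw [h4]
    have h7 : 0 ≤ mass PP win wt u * β u := mul_nonneg (hm u hu) (norm_nonneg _)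
    have h8 : (1 - 2 * eps) * (mass PP win wt u * β u ^ 2)
        = mass PP win wt u * β u * (β u + -(2 * eps * β u)) := by ring
    have h9 : mass PP win wt u * (β u * (‖BB (sel u) u‖ + (∑ j ∈ Psi.erase one, conj (cn j N)
          * (dd PP win wt one cj ch sel z j u * BB j u)).re))
        = mass PP win wt u * β u * (β u + (∑ j ∈ Psi.erase one, conj (cn j N)
          * (dd PP win wt one cj ch sel z j u * BB j u)).re) := by
      simp only [hβ]
      ring
    rw [h8, h9]
    exact mul_le_mul_of_nonneg_left (by linarith) h7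
  -- conclusion
  by_contra hcon
  push Not at hcon
  have hS1 : 1 ≤ S := by nlinarith
  set r := Real.sqrt S with hr
  have hr2 : r ^ 2 = S := Real.sq_sqrt hS0
  have hr0 : 0 ≤ r := Real.sqrt_nonneg S
  have hr20 : 20 * C < r := by
    have : (20 * C) ^ 2 < r ^ 2 := by rw [hr2]; nlinarith
    nlinarith
  have hsqW : Real.sqrt W ≤ 2 * r := by
    rw [Real.sqrt_le_left (by positivity)]
    nlinarith
  have heta := h.eta_le
  have heta0 := h.eta_nonneg
  have he1 : 2 * eta * (2 * K0) ^ 2 ≤ 1 / 2 := by nlinarith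
  have he2 : 2 * eta * (2 * K0) ≤ 1 / 4 := by nlinarith
  have hLT2 : (31 / 32) * S ≤ LT PP UU Psi win wt ch cn BB N θ := by
    refine le_trans ?_ hLT
    nlinarith
  have hlow : (31 / 32) * S - (2 * C * r + 1 / 4) ≤ LT PP UU Psi win wt ch cn BB N θ
      - (C * Real.sqrt W + 2 * eta * (2 * K0)) := by
    have h1 : C * Real.sqrt W ≤ C * (2 * r) := mul_le_mul_of_nonneg_left hsqW (by linarith)
    linarith
  have hlow2 : (27 / 32) * S ≤ (31 / 32) * S - (2 * C * r + 1 / 4) := by
    have h1 : 2 * C * r ≤ S / 10 := by nlinarith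
    have h2 : (400 : ℝ) ≤ S := by nlinarith
    nlinarith
  have hq3 : C * W + QT PP UU Psi win wt ch cn HH N θ + 2 * eta * (2 * K0) ^ 2 ≤ 43 * C * S + 1 / 2 := by
    have h1 := (abs_le.1 hq).2
    have h2 : (1 + 2 * eps) ^ 2 ≤ 1.0635 := by nlinarith
    have h3 : 2 * (18 * C) * ((1 + 2 * eps) ^ 2 * S) ≤ 2 * (18 * C) * (1.0635 * S) := by
      apply mul_le_mul_of_nonneg_left _ (by positivity)
      exact mul_le_mul_of_nonneg_right h2 hS0
    have h4 : C * W ≤ C * (4 * S) := mul_le_mul_of_nonneg_left hW (by linarith)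
    have h5 : 0 ≤ C * S := by positivity
    linarith
  rcases hcs with h1 | h1
  · have h2 : 0 < (27 / 32) * S := by linarith
    linarith
  · have h2 : ((27 / 32) * S) ^ 2 ≤ (LT PP UU Psi win wt ch cn BB N θ
      - (C * Real.sqrt W + 2 * eta * (2 * K0))) ^ 2 := by
      have h3 : 0 ≤ (27 / 32) * S := by positivity
      have h4 := le_trans hlow2 hlow
      nlinarith
    have h5 : C * (C * W + QT PP UU Psi win wt ch cn HH N θ + 2 * eta * (2 * K0) ^ 2)
        ≤ C * (43 * C * S + 1 / 2) := mul_le_mul_of_nonneg_left hq3 (by linarith)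
    have h6 : ((27 / 32) * S) ^ 2 ≤ C * (43 * C * S + 1 / 2) := le_trans h2 (le_trans h1 h5)
    have h7 : C * (43 * C * S + 1 / 2) ≤ 44 * C ^ 2 * S := by nlinarith
    have h8 : (27 / 32) ^ 2 * S ≤ 44 * C ^ 2 := by
      have h9 : S * ((27 / 32) ^ 2 * S) ≤ S * (44 * C ^ 2) := by nlinarith
      exact le_of_mul_le_mul_left h9 (by linarith)
    linarith [sq_nonneg C]

end

/-- PART B: for every N of NN and every weight w constant on the windows the characters other
than the trivial one contribute at most 20 C eps to the cross term and 36 C eps^2 to the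
quadratic term. -/
theorem b_main (PP : Finset π) (UU : Finset ω) (Psi : Finset ι) (NN : Set ν)
    (win : π → ω) (wt : π → ℝ) (one : ι) (cj : ι → ι) (ch : ι → π → ℂ) (cn : ι → ν → ℂ)
    (HH : ι → ω → ω → ℂ) (BB : ι → ω → ℂ) (Q L sh shc : ν → (π → ℝ) → ℝ) (q0 : ν → ℝ)
    (C K0 eps eta : ℝ)
    (h : BHyp PP UU Psi NN win wt one cj ch cn HH BB Q L sh shc q0 C K0 eps eta)
    (N : ν) (hN : N ∈ NN) (w : ω → ℝ) (hw : ∀ u ∈ UU, |w u| ≤ 1) :
    |L N (fun p => w (win p)) - shc N (fun p => w (win p))
        - (∑ u ∈ UU, ((mass PP win wt u * w u : ℝ) : ℂ) * BB one u).re| ≤ 20 * C * eps + eta ∧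
    |Q N (fun p => w (win p)) - sh N (fun p => w (win p))
        - (∑ u ∈ UU, ∑ v ∈ UU, ((mass PP win wt u * w u * (mass PP win wt v * w v) : ℝ) : ℂ)
          * HH one u v).re| ≤ 36 * C * eps ^ 2 + eta := by
  classical
  have hm : ∀ u ∈ UU, 0 ≤ mass PP win wt u := fun u _ => mass_nonneg h u
  have hC := h.C_ge
  have heps := h.eps_pos
  set θ : π → ℝ := fun p => w (win p) with hθ
  have hθ1 : ∀ p ∈ PP, |θ p| ≤ 1 := fun p hp => hw _ (h.win_mem p hp)
  -- window sums
  have hws : ∀ j : ι, ∀ u : ω, wsum PP win wt u (fun p => (θ p : ℂ) * ch j p)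
      = (w u : ℂ) * wsum PP win wt u (fun p => ch j p) := by
    intro j u
    rw [← wsum_smul]
    apply wsum_congr
    intro p _ hpu
    simp only [hθ]
    rw [hpu]
  have hw1 : ∀ u : ω, wsum PP win wt u (fun p => ch one p) = (mass PP win wt u : ℂ) := by
    intro u
    rw [← wsum_one]
    apply wsum_congr
    intro p hp _
    exact h.ch_one p hp
  have horth : ∀ u ∈ UU, ∑ j ∈ Psi.erase one, ‖wsum PP win wt u (fun p => ch j p)‖
      ≤ eps * mass PP win wt u := by
    intro u hu
    have h1 := h.orth one h.one_mem u hu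
    have h2 : ∀ j ∈ Psi.erase one, wsum PP win wt u (fun p => conj (ch one p) * ch j p)
        = wsum PP win wt u (fun p => ch j p) := by
      intro j _
      apply wsum_congr
      intro p hp _
      rw [h.ch_one p hp, map_one, one_mul]
    rw [Finset.sum_congr rfl fun j hj => by rw [h2 j hj]] at h1
    exact h1
  set a : ι → ω → ℂ := fun j u => (w u : ℂ) * wsum PP win wt u (fun p => ch j p)
    / (mass PP win wt u : ℂ) with ha
  have hwa : ∀ j ∈ Psi, ∀ u ∈ UU, wsum PP win wt u (fun p => (θ p : ℂ) * ch j p)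
      = (mass PP win wt u : ℂ) * a j u := by
    intro j _ u hu
    have hm' : (mass PP win wt u : ℂ) ≠ 0 := by exact_mod_cast (h.mass_pos u hu).ne'
    rw [hws]
    simp only [ha]
    field_simp
  have ha1 : ∀ u ∈ UU, a one u = (w u : ℂ) := by
    intro u hu
    have hm' : (mass PP win wt u : ℂ) ≠ 0 := by exact_mod_cast (h.mass_pos u hu).ne'
    simp only [ha]
    rw [hw1]
    field_simp
  have hga : ∀ u ∈ UU, ∑ j ∈ Psi.erase one, ‖a j u‖ ≤ eps * |w u| := by
    intro u hu
    have hmu := h.mass_pos u hu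
    have h1 : ∀ j ∈ Psi.erase one, ‖a j u‖
        = |w u| / mass PP win wt u * ‖wsum PP win wt u (fun p => ch j p)‖ := by
      intro j _
      simp only [ha]
      rw [norm_div, norm_mul, Complex.norm_real, Complex.norm_real, Real.norm_eq_abs,
        Real.norm_eq_abs, abs_of_pos hmu]
      ring
    rw [Finset.sum_congr rfl h1, ← Finset.mul_sum]
    have h2 := mul_le_mul_of_nonneg_left (horth u hu)
      (div_nonneg (abs_nonneg (w u)) hmu.le)
    refine le_trans h2 (le_of_eq ?_)
    field_simp
  have hSw : ∑ u ∈ UU, mass PP win wt u * w u ^ 2 ≤ 1 := by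
    refine le_trans (Finset.sum_le_sum fun u hu => ?_) h.mass_le
    have h1 : w u ^ 2 ≤ 1 := by
      rw [← sq_abs]
      have := hw u hu
      have h2 := abs_nonneg (w u)
      nlinarith
    have h3 := hm u hu
    nlinarith
  have hSw0 : 0 ≤ ∑ u ∈ UU, mass PP win wt u * w u ^ 2 :=
    Finset.sum_nonneg fun u hu => mul_nonneg (hm u hu) (sq_nonneg _)
  constructor
  · -- the cross term
    have h1 := h.expL N hN θ hθ1
    have h2 : (∑ i ∈ Psi, conj (cn i N) * ∑ u ∈ UU,
        wsum PP win wt u (fun p => (θ p : ℂ) * ch i p) * BB i u).re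
        = (∑ u ∈ UU, ((mass PP win wt u * w u : ℝ) : ℂ) * BB one u).re
          + (∑ j ∈ Psi.erase one, conj (cn j N) * ∑ u ∈ UU,
              (mass PP win wt u : ℂ) * a j u * BB j u).re := by
      rw [← Finset.add_sum_erase Psi _ h.one_mem, Complex.add_re]
      congr 2
      · rw [h.cn_one N hN, map_one, one_mul]
        refine Finset.sum_congr rfl fun u _ => ?_
        rw [hws, hw1]
        push_cast
        ring
      · refine Finset.sum_congr rfl fun j hj => ?_
        congr 1
        refine Finset.sum_congr rfl fun u hu => ?_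
        rw [hwa j (Finset.mem_of_mem_erase hj) u hu]
    have h3 : |(∑ j ∈ Psi.erase one, conj (cn j N) * ∑ u ∈ UU,
              (mass PP win wt u : ℂ) * a j u * BB j u).re| ≤ 20 * C * eps := by
      by_cases hne : (Psi.erase one).Nonempty
      · obtain ⟨β, hβ0, hβ, hβS⟩ := cross_bound h hN hne
        refine le_trans (Complex.abs_re_le_norm _) (le_trans (norm_sum_le _ _) ?_)
        calc ∑ j ∈ Psi.erase one, ‖conj (cn j N) * ∑ u ∈ UU,
              (mass PP win wt u : ℂ) * a j u * BB j u‖
            ≤ ∑ j ∈ Psi.erase one, ∑ u ∈ UU, mass PP win wt u * ‖a j u‖ * β u := by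
              refine Finset.sum_le_sum fun j hj => ?_
              rw [norm_mul, RCLike.norm_conj, h.cn_norm j (Finset.mem_of_mem_erase hj) N hN,
                one_mul]
              refine le_trans (norm_sum_le _ _) (Finset.sum_le_sum fun u hu => ?_)
              rw [norm_mul, norm_mul, Complex.norm_real, Real.norm_eq_abs,
                abs_of_nonneg (hm u hu)]
              exact mul_le_mul_of_nonneg_left (hβ u hu j hj)
                (mul_nonneg (hm u hu) (norm_nonneg _))
          _ = ∑ u ∈ UU, mass PP win wt u * β u * ∑ j ∈ Psi.erase one, ‖a j u‖ := by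
              rw [Finset.sum_comm]
              refine Finset.sum_congr rfl fun u _ => ?_
              rw [Finset.mul_sum]
              refine Finset.sum_congr rfl fun j _ => ?_
              ring
          _ ≤ ∑ u ∈ UU, (eps * (10 * C * (mass PP win wt u * w u ^ 2)
              + (40 * C)⁻¹ * (mass PP win wt u * β u ^ 2))) := by
              refine Finset.sum_le_sum fun u hu => ?_
              have h4 : 0 ≤ mass PP win wt u * β u := mul_nonneg (hm u hu) (hβ0 u hu)
              refine le_trans (mul_le_mul_of_nonneg_left (hga u hu) h4) ?_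
              have h5 : |w u| * β u ≤ 10 * C * w u ^ 2 + (40 * C)⁻¹ * β u ^ 2 := by
                have hC0 : 0 < 40 * C := by linarith
                have h6 : 10 * C * w u ^ 2 + (40 * C)⁻¹ * β u ^ 2 - |w u| * β u
                    = (40 * C)⁻¹ * (20 * C * |w u| - β u) ^ 2 := by
                  have h7 : w u ^ 2 = |w u| ^ 2 := (sq_abs _).symm
                  rw [h7]
                  field_simp
                  ring
                have h8 : 0 ≤ (40 * C)⁻¹ * (20 * C * |w u| - β u) ^ 2 := by positivity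
                linarith
              have h9 := mul_le_mul_of_nonneg_left h5 (mul_nonneg heps.le (hm u hu))
              nlinarith
          _ = eps * (10 * C * (∑ u ∈ UU, mass PP win wt u * w u ^ 2)
              + (40 * C)⁻¹ * ∑ u ∈ UU, mass PP win wt u * β u ^ 2) := by
              rw [← Finset.mul_sum, Finset.sum_add_distrib, ← Finset.mul_sum, ← Finset.mul_sum]
          _ ≤ eps * (10 * C * 1 + (40 * C)⁻¹ * (400 * C ^ 2)) := by
              apply mul_le_mul_of_nonneg_left _ heps.le
              have h10 : 0 < (40 * C)⁻¹ := by positivity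
              exact add_le_add (mul_le_mul_of_nonneg_left hSw (by positivity))
                (mul_le_mul_of_nonneg_left hβS h10.le)
          _ = 20 * C * eps := by
              have hC0 : C ≠ 0 := by linarith
              field_simp
              ring
      · rw [Finset.not_nonempty_iff_eq_empty.1 hne]
        simp only [Finset.sum_empty, Complex.zero_re, abs_zero]
        positivity
    rw [h2] at h1
    rw [abs_le] at h1 h3 ⊢
    constructor <;> linarith [h1.1, h1.2, h3.1, h3.2]
  · -- the quadratic term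
    have h1 := h.expQ N hN θ hθ1
    have h2 : (∑ i ∈ Psi, conj (cn i N) * ∑ u ∈ UU, ∑ v ∈ UU,
        wsum PP win wt u (fun p => (θ p : ℂ) * ch i p)
          * wsum PP win wt v (fun p => (θ p : ℂ) * ch i p) * HH i u v).re
        = (∑ u ∈ UU, ∑ v ∈ UU, ((mass PP win wt u * w u * (mass PP win wt v * w v) : ℝ) : ℂ)
          * HH one u v).re
          + (∑ j ∈ Psi.erase one, conj (cn j N) * bil UU (mass PP win wt) (HH j) (a j) (a j)).re := by
      have h3 := QT_eq (Psi := Psi) (cn := cn) (HH := HH) (N := N) θ a hwa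
      unfold QT at h3
      rw [h3, ← Finset.add_sum_erase Psi _ h.one_mem, Complex.add_re]
      congr 2
      rw [h.cn_one N hN, map_one, one_mul]
      unfold bil
      refine Finset.sum_congr rfl fun u hu => Finset.sum_congr rfl fun v hv => ?_
      rw [ha1 u hu, ha1 v hv]
      push_cast
      ring
    have h3 : |(∑ j ∈ Psi.erase one, conj (cn j N)
        * bil UU (mass PP win wt) (HH j) (a j) (a j)).re| ≤ 36 * C * eps ^ 2 := by
      by_cases hne : (Psi.erase one).Nonempty
      · have hΛ := rad_bound h hN hne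
        refine le_trans (quad_le h (by positivity) hΛ hN a hga) ?_
        have h4 : ∑ u ∈ UU, mass PP win wt u * (eps * |w u|) ^ 2
            = eps ^ 2 * ∑ u ∈ UU, mass PP win wt u * w u ^ 2 := by
          rw [Finset.mul_sum]
          refine Finset.sum_congr rfl fun u _ => ?_
          rw [mul_pow, sq_abs]
          ring
        rw [h4]
        have h5 : 0 ≤ 2 * (18 * C) * eps ^ 2 := by positivity
        nlinarith
      · rw [Finset.not_nonempty_iff_eq_empty.1 hne]
        simp only [Finset.sum_empty, Complex.zero_re, abs_zero]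
        positivity
    rw [h2] at h1
    rw [abs_le] at h1 h3 ⊢
    constructor <;> linarith [h1.1, h1.2, h3.1, h3.2]

end Pool.Agent.LSPB
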