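import Pool.Agent.Lib_helper14.LSPB.Test

/-!
Part B: positivity, the numerical radius.
-/

open scoped BigOperators ComplexConjugate

noncomputable section

namespace Pool.Agent.LSPB

variable {ι π ω ν : Type*} [DecidableEq ι] [DecidableEq ω]

/-- the quadratic expansion -/
def QT (PP : Finset π) (UU : Finset ω) (Psi : Finset ι) (win : π → ω) (wt : π → ℝ)
    (ch : ι → π → ℂ) (cn : ι → ν → ℂ) (HH : ι → ω → ω → ℂ) (N : ν) (θ : π → ℝ) : ℝ :=
  (∑ i ∈ Psi, conj (cn i N) * ∑ u ∈ UU, ∑ v ∈ UU,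
      wsum PP win wt u (fun p => (θ p : ℂ) * ch i p)
        * wsum PP win wt v (fun p => (θ p : ℂ) * ch i p) * HH i u v).re

/-- the linear expansion -/
def LT (PP : Finset π) (UU : Finset ω) (Psi : Finset ι) (win : π → ω) (wt : π → ℝ)
    (ch : ι → π → ℂ) (cn : ι → ν → ℂ) (BB : ι → ω → ℂ) (N : ν) (θ : π → ℝ) : ℝ :=
  (∑ i ∈ Psi, conj (cn i N) * ∑ u ∈ UU,
      wsum PP win wt u (fun p => (θ p : ℂ) * ch i p) * BB i u).re

section

variable {PP : Finset π} {UU : Finset ω} {Psi : Finset ι} {NN : Set ν}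
  {win : π → ω} {wt : π → ℝ} {one : ι} {cj : ι → ι} {ch : ι → π → ℂ} {cn : ι → ν → ℂ}
  {HH : ι → ω → ω → ℂ} {BB : ι → ω → ℂ} {Q L sh shc : ν → (π → ℝ) → ℝ} {q0 : ν → ℝ}
  {C K0 eps eta : ℝ}

theorem wsum_div {u : ω} (θ : π → ℝ) (T : ℝ) (i : ι) :
    wsum PP win wt u (fun p => ((θ p / T : ℝ) : ℂ) * ch i p)
      = (T : ℂ)⁻¹ * wsum PP win wt u (fun p => (θ p : ℂ) * ch i p) := by
  rw [← wsum_smul]
  apply wsum_congr
  intro p _ _
  push_cast
  ring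

theorem QT_div (N : ν) (θ : π → ℝ) (T : ℝ) :
    QT PP UU Psi win wt ch cn HH N (fun p => θ p / T)
      = (T ^ 2)⁻¹ * QT PP UU Psi win wt ch cn HH N θ := by
  unfold QT
  rw [← Complex.re_ofReal_mul]
  congr 1
  rw [Finset.mul_sum]
  refine Finset.sum_congr rfl fun i _ => ?_
  rw [Finset.mul_sum, Finset.mul_sum, Finset.mul_sum]
  refine Finset.sum_congr rfl fun u _ => ?_
  rw [Finset.mul_sum, Finset.mul_sum, Finset.mul_sum]
  refine Finset.sum_congr rfl fun v _ => ?_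
  rw [wsum_div, wsum_div]
  push_cast
  ring

theorem LT_div (N : ν) (θ : π → ℝ) (T : ℝ) :
    LT PP UU Psi win wt ch cn BB N (fun p => θ p / T)
      = T⁻¹ * LT PP UU Psi win wt ch cn BB N θ := by
  unfold LT
  rw [← Complex.re_ofReal_mul]
  congr 1
  rw [Finset.mul_sum]
  refine Finset.sum_congr rfl fun i _ => ?_
  rw [Finset.mul_sum, Finset.mul_sum, Finset.mul_sum]
  refine Finset.sum_congr rfl fun u _ => ?_
  rw [wsum_div]
  push_cast
  ring

theorem sq_div_sum (θ : π → ℝ) (T : ℝ) :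
    ∑ p ∈ PP, wt p * (θ p / T) ^ 2 = (T ^ 2)⁻¹ * ∑ p ∈ PP, wt p * θ p ^ 2 := by
  rw [Finset.mul_sum]
  refine Finset.sum_congr rfl fun p _ => ?_
  rw [div_pow]
  ring

theorem sup_div {θ : π → ℝ} {T : ℝ} (hT : 0 < T) (hθ : ∀ p ∈ PP, |θ p| ≤ T) :
    ∀ p ∈ PP, |θ p / T| ≤ 1 := by
  intro p hp
  rw [abs_div, abs_of_pos hT, div_le_one hT]
  exact hθ p hp

/-- positivity, scaled -/
theorem pos_scaled
    (h : BHyp PP UU Psi NN win wt one cj ch cn HH BB Q L sh shc q0 C K0 eps eta)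
    {N : ν} (hN : N ∈ NN) (θ : π → ℝ) {T : ℝ} (hT : 0 < T) (hθ : ∀ p ∈ PP, |θ p| ≤ T) :
    0 ≤ C * ∑ p ∈ PP, wt p * θ p ^ 2 + QT PP UU Psi win wt ch cn HH N θ + 2 * eta * T ^ 2 := by
  have hθ' := sup_div hT hθ
  have h1 := h.pos N hN (fun p => θ p / T) hθ' 0
  have h2 := h.expQ N hN (fun p => θ p / T) hθ'
  have h3 := h.sh_le N hN (fun p => θ p / T) hθ'
  have h4 : QT PP UU Psi win wt ch cn HH N (fun p => θ p / T)
      = (T ^ 2)⁻¹ * QT PP UU Psi win wt ch cn HH N θ := QT_div N θ T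
  unfold QT at h4
  rw [h4] at h2
  rw [sq_div_sum] at h3
  rw [abs_le] at h2
  have hT2 : 0 < (T ^ 2)⁻¹ := by positivity
  have h5 : 0 ≤ (T ^ 2)⁻¹ * (C * ∑ p ∈ PP, wt p * θ p ^ 2 + QT PP UU Psi win wt ch cn HH N θ
      + 2 * eta * T ^ 2) := by
    have h6 : (T ^ 2)⁻¹ * (2 * eta * T ^ 2) = 2 * eta := by
      field_simp
    have h7 : (T ^ 2)⁻¹ * (C * ∑ p ∈ PP, wt p * θ p ^ 2 + QT PP UU Psi win wt ch cn HH N θ
      + 2 * eta * T ^ 2) = C * ((T ^ 2)⁻¹ * ∑ p ∈ PP, wt p * θ p ^ 2)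
        + (T ^ 2)⁻¹ * QT PP UU Psi win wt ch cn HH N θ + (T ^ 2)⁻¹ * (2 * eta * T ^ 2) := by ring
    rw [h7, h6]
    unfold QT
    have h8 := h2.2
    simp only [ne_eq, OfNat.ofNat_ne_zero, not_false_eq_true, zero_pow, zero_mul, mul_zero,
      zero_add] at h1
    linarith
  exact nonneg_of_mul_nonneg_right h5 hT2

/-- the cross term, scaled -/
theorem cross_scaled
    (h : BHyp PP UU Psi NN win wt one cj ch cn HH BB Q L sh shc q0 C K0 eps eta)
    {N : ν} (hN : N ∈ NN) (θ : π → ℝ) {T : ℝ} (hT : 0 < T) (hθ : ∀ p ∈ PP, |θ p| ≤ T)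
    (hmean : ∀ u ∈ UU, ∑ p ∈ PP with win p = u, wt p * θ p = 0) :
    LT PP UU Psi win wt ch cn BB N θ ≤ C * Real.sqrt (∑ p ∈ PP, wt p * θ p ^ 2) + 2 * eta * T ∨
    (LT PP UU Psi win wt ch cn BB N θ - (C * Real.sqrt (∑ p ∈ PP, wt p * θ p ^ 2)
      + 2 * eta * T)) ^ 2 ≤
      C * (C * ∑ p ∈ PP, wt p * θ p ^ 2 + QT PP UU Psi win wt ch cn HH N θ + 2 * eta * T ^ 2) := by
  by_cases hcase : LT PP UU Psi win wt ch cn BB N θ
      ≤ C * Real.sqrt (∑ p ∈ PP, wt p * θ p ^ 2) + 2 * eta * T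
  · exact Or.inl hcase
  refine Or.inr ?_
  push Not at hcase
  have hθ' := sup_div hT hθ
  have hmean' : ∀ u ∈ UU, ∑ p ∈ PP with win p = u, wt p * (θ p / T) = 0 := by
    intro u hu
    have h1 : ∑ p ∈ PP with win p = u, wt p * (θ p / T)
        = T⁻¹ * ∑ p ∈ PP with win p = u, wt p * θ p := by
      rw [Finset.mul_sum]
      refine Finset.sum_congr rfl fun p _ => ?_
      ring
    rw [h1, hmean u hu, mul_zero]
  have h1 := h.pos N hN (fun p => θ p / T) hθ'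
  have h2 := h.expQ N hN (fun p => θ p / T) hθ'
  have h3 := h.sh_le N hN (fun p => θ p / T) hθ'
  have h4 : QT PP UU Psi win wt ch cn HH N (fun p => θ p / T)
      = (T ^ 2)⁻¹ * QT PP UU Psi win wt ch cn HH N θ := QT_div N θ T
  have h5 := h.expL N hN (fun p => θ p / T) hθ'
  have h6 : LT PP UU Psi win wt ch cn BB N (fun p => θ p / T)
      = T⁻¹ * LT PP UU Psi win wt ch cn BB N θ := LT_div N θ T
  have h7 := h.shc_le N hN (fun p => θ p / T) hθ' hmean'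
  have hq0 := h.q0_le N hN
  have hC := h.C_ge
  unfold QT at h4
  rw [h4] at h2
  unfold LT at h6
  rw [h6] at h5
  rw [sq_div_sum] at h3 h7
  rw [abs_le] at h2 h5 h7
  set l := LT PP UU Psi win wt ch cn BB N θ with hl
  have hl' : l = (∑ i ∈ Psi, conj (cn i N) * ∑ u ∈ UU,
      wsum PP win wt u (fun p => (θ p : ℂ) * ch i p) * BB i u).re := rfl
  rw [← hl'] at h5
  set q := QT PP UU Psi win wt ch cn HH N θ with hq
  have hq' : q = (∑ i ∈ Psi, conj (cn i N) * ∑ u ∈ UU, ∑ v ∈ UU,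
      wsum PP win wt u (fun p => (θ p : ℂ) * ch i p)
        * wsum PP win wt v (fun p => (θ p : ℂ) * ch i p) * HH i u v).re := rfl
  rw [← hq'] at h2
  set W := ∑ p ∈ PP, wt p * θ p ^ 2 with hW
  have hsq : Real.sqrt ((T ^ 2)⁻¹ * W) = T⁻¹ * Real.sqrt W := by
    rw [Real.sqrt_mul (by positivity), Real.sqrt_inv, Real.sqrt_sq hT.le]
  rw [hsq] at h7
  set r := Real.sqrt W with hr
  set L' := L N (fun p => θ p / T) with hL'
  set Q' := Q N (fun p => θ p / T) with hQ'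
  have hLge : T⁻¹ * (l - (C * r + 2 * eta * T)) ≤ L' := by
    have h8 : T⁻¹ * (l - (C * r + 2 * eta * T)) = T⁻¹ * l - C * (T⁻¹ * r) - 2 * eta := by
      field_simp
      ring
    rw [h8]
    linarith [h5.1, h7.1]
  have hQle : Q' ≤ (T ^ 2)⁻¹ * (C * W + q + 2 * eta * T ^ 2) := by
    have h8 : (T ^ 2)⁻¹ * (C * W + q + 2 * eta * T ^ 2) = C * ((T ^ 2)⁻¹ * W) + (T ^ 2)⁻¹ * q
        + 2 * eta := by
      field_simp
    rw [h8]
    linarith [h2.2]
  have hCpos : 0 < C := by linarith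
  have hL2 : L' ^ 2 ≤ C * Q' := by
    have h8 := h1 (-(L' / C))
    have h9 : (-(L' / C)) ^ 2 * q0 N ≤ (-(L' / C)) ^ 2 * C :=
      mul_le_mul_of_nonneg_left hq0 (sq_nonneg _)
    have h10 : (-(L' / C)) ^ 2 * C + 2 * (-(L' / C)) * L' = -(L' ^ 2 / C) := by
      field_simp
      ring
    have h11 : L' ^ 2 / C ≤ Q' := by linarith
    rw [div_le_iff₀ hCpos] at h11
    linarith
  have hpos : 0 ≤ T⁻¹ * (l - (C * r + 2 * eta * T)) := by
    have : 0 ≤ T⁻¹ := by positivity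
    exact mul_nonneg this (by linarith)
  have h12 : (T⁻¹ * (l - (C * r + 2 * eta * T))) ^ 2 ≤ L' ^ 2 := by
    nlinarith
  have h13 : (T⁻¹ * (l - (C * r + 2 * eta * T))) ^ 2
      ≤ C * ((T ^ 2)⁻¹ * (C * W + q + 2 * eta * T ^ 2)) := by
    refine le_trans h12 (le_trans hL2 ?_)
    exact mul_le_mul_of_nonneg_left hQle hCpos.le
  have h14 : (l - (C * r + 2 * eta * T)) ^ 2
      = T ^ 2 * (T⁻¹ * (l - (C * r + 2 * eta * T))) ^ 2 := by
    rw [← mul_pow]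
    congr 1
    field_simp
  rw [h14]
  calc T ^ 2 * (T⁻¹ * (l - (C * r + 2 * eta * T))) ^ 2
      ≤ T ^ 2 * (C * ((T ^ 2)⁻¹ * (C * W + q + 2 * eta * T ^ 2))) :=
        mul_le_mul_of_nonneg_left h13 (by positivity)
    _ = C * (C * W + q + 2 * eta * T ^ 2) := by
        field_simp

/-- the quadratic expansion in terms of bil -/
theorem QT_eq {N : ν} (θ : π → ℝ) (a : ι → ω → ℂ)
    (ha : ∀ j ∈ Psi, ∀ u ∈ UU, wsum PP win wt u (fun p => (θ p : ℂ) * ch j p)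
      = (mass PP win wt u : ℂ) * a j u) :
    QT PP UU Psi win wt ch cn HH N θ
      = (∑ j ∈ Psi, conj (cn j N) * bil UU (mass PP win wt) (HH j) (a j) (a j)).re := by
  unfold QT bil
  congr 1
  refine Finset.sum_congr rfl fun j hj => ?_
  congr 1
  refine Finset.sum_congr rfl fun u hu => Finset.sum_congr rfl fun v hv => ?_
  rw [ha j hj u hu, ha j hj v hv]
  ring

theorem nsq_sum_le {m : ω → ℝ} (hm : ∀ u ∈ UU, 0 ≤ m u) (J : Finset ι) (a : ι → ω → ℂ) :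
    ∑ j ∈ J, nsq UU m (a j) ≤ ∑ u ∈ UU, m u * (∑ j ∈ J, ‖a j u‖) ^ 2 := by
  unfold nsq
  rw [Finset.sum_comm]
  refine Finset.sum_le_sum fun u hu => ?_
  rw [← Finset.mul_sum]
  apply mul_le_mul_of_nonneg_left _ (hm u hu)
  exact Finset.sum_sq_le_sq_sum_of_nonneg fun j _ => norm_nonneg _

/-- vanishing of the term of the trivial character -/
theorem sum_erase_one (h : BHyp PP UU Psi NN win wt one cj ch cn HH BB Q L sh shc q0 C K0 eps eta)
    (f : ι → ℂ) (h0 : f one = 0) : ∑ j ∈ Psi, f j = ∑ j ∈ Psi.erase one, f j := by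
  rw [← Finset.add_sum_erase Psi f h.one_mem, h0, zero_add]

end

end Pool.Agent.LSPB
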