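import Pool.Agent.Lib_helper14.LSPB.Pos

/-!
Part B: the bound for the numerical radius.
-/

open scoped BigOperators ComplexConjugate

noncomputable section

namespace Pool.Agent.LSPB

variable {ι π ω ν : Type*} [DecidableEq ι] [DecidableEq ω]

section

variable {PP : Finset π} {UU : Finset ω} {Psi : Finset ι} {NN : Set ν}
  {win : π → ω} {wt : π → ℝ} {one : ι} {cj : ι → ι} {ch : ι → π → ℂ} {cn : ι → ν → ℂ}
  {HH : ι → ω → ω → ℂ} {BB : ι → ω → ℂ} {Q L sh shc : ν → (π → ℝ) → ℝ} {q0 : ν → ℝ}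
  {C K0 eps eta : ℝ}

theorem conj_eq_of_cj (h : BHyp PP UU Psi NN win wt one cj ch cn HH BB Q L sh shc q0 C K0 eps eta)
    {i : ι} (hi : i ∈ Psi) (hr : cj i = i) {N : ν} (hN : N ∈ NN) : conj (cn i N) = cn i N := by
  have h1 := h.cn_cj i hi N hN
  rw [hr] at h1
  exact h1.symm

theorem bil_cj (h : BHyp PP UU Psi NN win wt one cj ch cn HH BB Q L sh shc q0 C K0 eps eta)
    {i : ι} (hi : i ∈ Psi) (x : ω → ℝ) :
    bil UU (mass PP win wt) (HH (cj i)) (rv x) (rv x)
      = conj (bil UU (mass PP win wt) (HH i) (rv x) (rv x)) := by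
  have h1 := bil_conj UU (mass PP win wt) (HH i) (HH (cj i)) (h.HH_cj i hi) (rv x) (rv x)
  rw [← h1]
  apply bil_congr
  · intro u _
    simp [rv]
  · intro u _
    simp [rv]

omit [DecidableEq ω] in
theorem bil_zero_left (UU : Finset ω) (m : ω → ℝ) (K : ω → ω → ℂ) {a b : ω → ℂ}
    (ha : ∀ u ∈ UU, a u = 0) : bil UU m K a b = 0 := by
  unfold bil
  refine Finset.sum_eq_zero fun u hu => Finset.sum_eq_zero fun v _ => ?_
  rw [ha u hu]
  ring

/-- choice of the phase and of the prime N -/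
theorem phase_exists
    (h : BHyp PP UU Psi NN win wt one cj ch cn HH BB Q L sh shc q0 C K0 eps eta)
    {i : ι} (hi : i ∈ Psi) (hi1 : i ≠ one) {N : ν} (hN : N ∈ NN) (x : ω → ℝ) :
    ∃ N' ∈ NN, ∃ z : ℂ, ‖z‖ = 1 ∧
      (∑ j ∈ Psi.erase one, conj (cn j N') * ((if j = i then z / 2 else 0)
        + (if j = cj i then conj z / 2 else 0)) ^ 2
          * bil UU (mass PP win wt) (HH j) (rv x) (rv x)).re
        ≤ -(1 / 2 * ‖bil UU (mass PP win wt) (HH i) (rv x) (rv x)‖) := by
  classical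
  set b := bil UU (mass PP win wt) (HH i) (rv x) (rv x) with hb
  have hie : i ∈ Psi.erase one := Finset.mem_erase.2 ⟨hi1, hi⟩
  have hcji : cj i ∈ Psi := h.cj_mem i hi
  have hcj1 : cj i ≠ one := by
    intro h1
    have h2 := h.cj_cj i hi
    rw [h1, h.cj_one] at h2
    exact hi1 h2.symm
  have hcje : cj i ∈ Psi.erase one := Finset.mem_erase.2 ⟨hcj1, hcji⟩
  by_cases hr : cj i = i
  · -- real characters
    have hbr : conj b = b := by
      rw [hb, ← bil_cj h hi x, hr]
    have hsum : ∀ N' ∈ NN, (∑ j ∈ Psi.erase one, conj (cn j N') * ((if j = i then (1 : ℂ) / 2 else 0)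
        + (if j = cj i then conj (1 : ℂ) / 2 else 0)) ^ 2
          * bil UU (mass PP win wt) (HH j) (rv x) (rv x)) = cn i N' * b := by
      intro N' hN'
      rw [Finset.sum_eq_single i]
      · rw [if_pos rfl, if_pos hr.symm, conj_eq_of_cj h hi hr hN', map_one, ← hb]
        norm_num
      · intro j _ hj
        rw [if_neg hj, if_neg (by rw [hr]; exact hj)]
        ring
      · intro h1
        exact absurd hie h1
    have hsq : ∀ N' ∈ NN, cn i N' = 1 ∨ cn i N' = -1 := by
      intro N' hN'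
      have h1 := conj_eq_of_cj h hi hr hN'
      have h2 := h.cn_norm i hi N' hN'
      have h3 : cn i N' * cn i N' = 1 := by
        have h4 : conj (cn i N') * cn i N' = 1 := by
          rw [← Complex.normSq_eq_conj_mul_self, Complex.normSq_eq_norm_sq, h2]
          simp
        rw [h1] at h4
        exact h4
      exact mul_self_eq_one_iff.1 h3
    have hbre : b = ((b.re : ℝ) : ℂ) := (Complex.conj_eq_iff_real.1 hbr).elim fun r hr' => by
      rw [hr']
      simp
    have hnorm : ‖b‖ = |b.re| := by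
      conv_lhs => rw [hbre]
      rw [Complex.norm_real, Real.norm_eq_abs]
    obtain ⟨N', hN', hN'2⟩ : ∃ N' ∈ NN, (cn i N' * b).re = -‖b‖ := by
      have h4 : (cn i N * b).re = ‖b‖ ∨ (cn i N * b).re = -‖b‖ := by
        rcases hsq N hN with h5 | h5
        · rw [h5, one_mul, hnorm]
          rcases abs_choice b.re with h6 | h6
          · left; rw [h6]
          · right; rw [h6]; ring
        · rw [h5, hnorm]
          simp only [neg_mul, one_mul, Complex.neg_re]
          rcases abs_choice b.re with h6 | h6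
          · right; rw [h6]
          · left; rw [h6]
      rcases h4 with h4 | h4
      · obtain ⟨N', hN', h5⟩ := h.real_sign i hi hi1 hr N hN
        refine ⟨N', hN', ?_⟩
        rw [h5]
        simp only [neg_mul, Complex.neg_re]
        rw [h4]
      · exact ⟨N, hN, h4⟩
    refine ⟨N', hN', 1, norm_one, ?_⟩
    rw [hsum N' hN', hN'2]
    linarith [norm_nonneg b]
  · -- complex characters
    have hcn0 : cn i N ≠ 0 := by
      intro h1
      have h2 := h.cn_norm i hi N hN
      rw [h1, norm_zero] at h2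
      exact zero_ne_one h2
    obtain ⟨z, hz, hz2⟩ : ∃ z : ℂ, ‖z‖ = 1 ∧ conj (cn i N) * z ^ 2 * b = -((‖b‖ : ℝ) : ℂ) := by
      by_cases hb0 : b = 0
      · refine ⟨1, norm_one, ?_⟩
        rw [hb0]
        simp
      · obtain ⟨z, hz⟩ := IsAlgClosed.exists_pow_nat_eq
          (-((‖b‖ : ℝ) : ℂ) / (conj (cn i N) * b)) (n := 2) (by norm_num)
        have hc0 : conj (cn i N) * b ≠ 0 := by
          apply mul_ne_zero _ hb0
          rw [Ne, map_eq_zero]
          exact hcn0
        refine ⟨z, ?_, ?_⟩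
        · have h1 : ‖z‖ ^ 2 = 1 := by
            rw [← norm_pow, hz, norm_div, norm_neg, Complex.norm_real, norm_mul, RCLike.norm_conj,
              h.cn_norm i hi N hN, one_mul, norm_norm, div_self (norm_ne_zero_iff.2 hb0)]
          have h2 : (0 : ℝ) ≤ ‖z‖ := norm_nonneg z
          nlinarith
        · rw [hz]
          have : conj (cn i N) * (-((‖b‖ : ℝ) : ℂ) / (conj (cn i N) * b)) * b
              = (-((‖b‖ : ℝ) : ℂ)) * ((conj (cn i N) * b) / (conj (cn i N) * b)) := by ring
          rw [this, div_self hc0, mul_one]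
    refine ⟨N, hN, z, hz, ?_⟩
    have hsub : ∑ j ∈ Psi.erase one, conj (cn j N) * ((if j = i then z / 2 else 0)
        + (if j = cj i then conj z / 2 else 0)) ^ 2
          * bil UU (mass PP win wt) (HH j) (rv x) (rv x)
        = conj (cn i N) * (z / 2) ^ 2 * b + conj (conj (cn i N) * (z / 2) ^ 2 * b) := by
      have h1 : ∑ j ∈ Psi.erase one, conj (cn j N) * ((if j = i then z / 2 else 0)
        + (if j = cj i then conj z / 2 else 0)) ^ 2
          * bil UU (mass PP win wt) (HH j) (rv x) (rv x)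
          = ∑ j ∈ Psi.erase one, ((if j = i then conj (cn i N) * (z / 2) ^ 2 * b else 0)
            + (if j = cj i then conj (conj (cn i N) * (z / 2) ^ 2 * b) else 0)) := by
        refine Finset.sum_congr rfl fun j _ => ?_
        by_cases hj : j = i
        · rw [if_pos hj, if_neg (by rw [hj]; exact fun h2 => hr h2.symm), if_pos hj,
            if_neg (by rw [hj]; exact fun h2 => hr h2.symm), add_zero, add_zero, hj]
        · rw [if_neg hj, if_neg hj]
          by_cases hj2 : j = cj i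
          · rw [if_pos hj2, if_pos hj2, hj2, bil_cj h hi x, h.cn_cj i hi N hN]
            simp only [map_mul, map_pow, map_div₀, Complex.conj_conj, zero_add]
            have h3 : (conj (2 : ℂ)) = 2 := Complex.conj_ofNat 2
            rw [h3]
          · rw [if_neg hj2, if_neg hj2]
            ring
      rw [h1, Finset.sum_add_distrib, Finset.sum_ite_eq' _ i, Finset.sum_ite_eq' _ (cj i),
        if_pos hie, if_pos hcje]
    rw [hsub, Complex.add_re, Complex.conj_re]
    have h2 : conj (cn i N) * (z / 2) ^ 2 * b = ((-(‖b‖ / 4) : ℝ) : ℂ) := by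
      have h3 : conj (cn i N) * (z / 2) ^ 2 * b = (conj (cn i N) * z ^ 2 * b) / 4 := by ring
      rw [h3, hz2]
      push_cast
      ring
    rw [h2, Complex.ofReal_re]
    linarith

/-- error terms -/
theorem err_le (h : BHyp PP UU Psi NN win wt one cj ch cn HH BB Q L sh shc q0 C K0 eps eta)
    {Λ : ℝ} (hΛ0 : 0 ≤ Λ)
    (hΛ : ∀ j ∈ Psi.erase one, ∀ x : ω → ℝ, ‖bil UU (mass PP win wt) (HH j) (rv x) (rv x)‖
      ≤ Λ * ∑ u ∈ UU, mass PP win wt u * x u ^ 2)
    {N : ν} (hN : N ∈ NN) (x : ω → ℝ) (c : ι → ℂ) (hc : ∑ j ∈ Psi.erase one, ‖c j‖ ≤ 1)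
    (d : ι → ω → ℂ) (hd : ∀ u ∈ UU, ∑ j ∈ Psi.erase one, ‖d j u‖ ≤ 2 * eps) :
    |(∑ j ∈ Psi.erase one, conj (cn j N) * bil UU (mass PP win wt) (HH j)
        (fun u => (x u : ℂ) * (c j + d j u)) (fun u => (x u : ℂ) * (c j + d j u))).re
      - (∑ j ∈ Psi.erase one, conj (cn j N) * c j ^ 2
          * bil UU (mass PP win wt) (HH j) (rv x) (rv x)).re|
      ≤ 9 * eps * Λ * ∑ u ∈ UU, mass PP win wt u * x u ^ 2 := by
  have hm : ∀ u ∈ UU, 0 ≤ mass PP win wt u := fun u _ => mass_nonneg h u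
  set S := ∑ u ∈ UU, mass PP win wt u * x u ^ 2 with hS
  have hS0 : 0 ≤ S := Finset.sum_nonneg fun u hu => mul_nonneg (hm u hu) (sq_nonneg _)
  have heps := h.eps_pos
  have heps2 := h.eps_le
  have hmemP : ∀ j ∈ Psi.erase one, j ∈ Psi := fun j hj => Finset.mem_of_mem_erase hj
  have hexp : ∀ j ∈ Psi.erase one, bil UU (mass PP win wt) (HH j)
        (fun u => (x u : ℂ) * (c j + d j u)) (fun u => (x u : ℂ) * (c j + d j u))
      = c j ^ 2 * bil UU (mass PP win wt) (HH j) (rv x) (rv x)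
        + (2 * c j * bil UU (mass PP win wt) (HH j) (rv x) (fun u => (x u : ℂ) * d j u)
        + bil UU (mass PP win wt) (HH j) (fun u => (x u : ℂ) * d j u)
            (fun u => (x u : ℂ) * d j u)) := by
    intro j hj
    have h1 : (fun u => (x u : ℂ) * (c j + d j u))
        = fun u => c j * rv x u + (x u : ℂ) * d j u := by
      funext u
      simp only [rv]
      ring
    rw [h1, bil_add_left, bil_add_right, bil_add_right, bil_smul_left, bil_smul_left,
      bil_smul_right, bil_smul_right,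
      bil_comm UU _ _ (h.HH_symm j (hmemP j hj)) (fun u => (x u : ℂ) * d j u) (rv x)]
    ring
  have hdj : ∀ j ∈ Psi.erase one, ∀ u ∈ UU, ‖d j u‖ ≤ 2 * eps := by
    intro j hj u hu
    exact le_trans (Finset.single_le_sum (f := fun j => ‖d j u‖) (fun _ _ => norm_nonneg _) hj)
      (hd u hu)
  have hnd : ∀ j ∈ Psi.erase one, nsq UU (mass PP win wt) (fun u => (x u : ℂ) * d j u)
      ≤ (2 * eps) ^ 2 * S := by
    intro j hj
    unfold nsq
    rw [hS, Finset.mul_sum]
    refine Finset.sum_le_sum fun u hu => ?_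
    rw [norm_mul, Complex.norm_real, Real.norm_eq_abs, mul_pow, sq_abs]
    have h1 : ‖d j u‖ ^ 2 ≤ (2 * eps) ^ 2 := by
      have := hdj j hj u hu
      have h2 := norm_nonneg (d j u)
      nlinarith
    have h3 := mul_le_mul_of_nonneg_left h1 (mul_nonneg (hm u hu) (sq_nonneg (x u)))
    nlinarith
  have hsumd : ∑ j ∈ Psi.erase one, nsq UU (mass PP win wt) (fun u => (x u : ℂ) * d j u)
      ≤ (2 * eps) ^ 2 * S := by
    refine le_trans (nsq_sum_le hm _ _) ?_
    rw [hS, Finset.mul_sum]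
    refine Finset.sum_le_sum fun u hu => ?_
    have h1 : ∑ j ∈ Psi.erase one, ‖(x u : ℂ) * d j u‖ = |x u| * ∑ j ∈ Psi.erase one, ‖d j u‖ := by
      rw [Finset.mul_sum]
      refine Finset.sum_congr rfl fun j _ => ?_
      rw [norm_mul, Complex.norm_real, Real.norm_eq_abs]
    rw [h1, mul_pow, sq_abs]
    have h2 := hd u hu
    have h3 : 0 ≤ ∑ j ∈ Psi.erase one, ‖d j u‖ := Finset.sum_nonneg fun _ _ => norm_nonneg _
    have h4 : (∑ j ∈ Psi.erase one, ‖d j u‖) ^ 2 ≤ (2 * eps) ^ 2 := by nlinarith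
    have h5 := mul_le_mul_of_nonneg_left h4 (mul_nonneg (hm u hu) (sq_nonneg (x u)))
    nlinarith
  have hcross : ∀ j ∈ Psi.erase one,
      ‖bil UU (mass PP win wt) (HH j) (rv x) (fun u => (x u : ℂ) * d j u)‖ ≤ 4 * eps * Λ * S := by
    intro j hj
    have h1 := bil_le_scaled UU _ _ (h.HH_symm j (hmemP j hj)) (hΛ j hj) (rv x)
      (fun u => (x u : ℂ) * d j u) (s := 2 * eps) (by positivity)
    rw [nsq_rv, ← hS] at h1
    refine le_trans h1 ?_
    have h2 := hnd j hj
    have h3 : (2 * eps)⁻¹ * nsq UU (mass PP win wt) (fun u => (x u : ℂ) * d j u)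
        ≤ 2 * eps * S := by
      rw [inv_mul_le_iff₀ (by positivity)]
      calc _ ≤ (2 * eps) ^ 2 * S := h2
        _ = 2 * eps * (2 * eps * S) := by ring
    have h4 := mul_le_mul_of_nonneg_left h3 hΛ0
    nlinarith
  have hself : ∀ j ∈ Psi.erase one,
      ‖bil UU (mass PP win wt) (HH j) (fun u => (x u : ℂ) * d j u) (fun u => (x u : ℂ) * d j u)‖
      ≤ 2 * Λ * nsq UU (mass PP win wt) (fun u => (x u : ℂ) * d j u) := by
    intro j hj
    have h1 := bil_le UU _ _ (h.HH_symm j (hmemP j hj)) (hΛ j hj)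
      (fun u => (x u : ℂ) * d j u) (fun u => (x u : ℂ) * d j u)
    linarith
  have hdiff : (∑ j ∈ Psi.erase one, conj (cn j N) * bil UU (mass PP win wt) (HH j)
        (fun u => (x u : ℂ) * (c j + d j u)) (fun u => (x u : ℂ) * (c j + d j u)))
      - (∑ j ∈ Psi.erase one, conj (cn j N) * c j ^ 2
          * bil UU (mass PP win wt) (HH j) (rv x) (rv x))
      = ∑ j ∈ Psi.erase one, conj (cn j N) * (2 * c j
          * bil UU (mass PP win wt) (HH j) (rv x) (fun u => (x u : ℂ) * d j u)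
        + bil UU (mass PP win wt) (HH j) (fun u => (x u : ℂ) * d j u)
            (fun u => (x u : ℂ) * d j u)) := by
    rw [← Finset.sum_sub_distrib]
    refine Finset.sum_congr rfl fun j hj => ?_
    rw [hexp j hj]
    ring
  rw [← Complex.sub_re, hdiff]
  refine le_trans (Complex.abs_re_le_norm _) (le_trans (norm_sum_le _ _) ?_)
  calc ∑ j ∈ Psi.erase one, ‖conj (cn j N) * (2 * c j
          * bil UU (mass PP win wt) (HH j) (rv x) (fun u => (x u : ℂ) * d j u)
        + bil UU (mass PP win wt) (HH j) (fun u => (x u : ℂ) * d j u)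
            (fun u => (x u : ℂ) * d j u))‖
      ≤ ∑ j ∈ Psi.erase one, (8 * eps * Λ * S * ‖c j‖
        + 2 * Λ * nsq UU (mass PP win wt) (fun u => (x u : ℂ) * d j u)) := by
        refine Finset.sum_le_sum fun j hj => ?_
        rw [norm_mul, RCLike.norm_conj, h.cn_norm j (hmemP j hj) N hN, one_mul]
        refine le_trans (norm_add_le _ _) (add_le_add ?_ (hself j hj))
        rw [norm_mul, norm_mul]
        have h1 : ‖(2 : ℂ)‖ = 2 := by norm_num
        rw [h1]
        have h2 := mul_le_mul_of_nonneg_left (hcross j hj) (norm_nonneg (c j))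
        linarith
    _ = 8 * eps * Λ * S * ∑ j ∈ Psi.erase one, ‖c j‖
        + 2 * Λ * ∑ j ∈ Psi.erase one, nsq UU (mass PP win wt) (fun u => (x u : ℂ) * d j u) := by
        rw [Finset.sum_add_distrib, ← Finset.mul_sum, ← Finset.mul_sum]
    _ ≤ 8 * eps * Λ * S * 1 + 2 * Λ * ((2 * eps) ^ 2 * S) := by
        have h1 : 0 ≤ 8 * eps * Λ * S := by positivity
        exact add_le_add (mul_le_mul_of_nonneg_left hc h1)
          (mul_le_mul_of_nonneg_left hsumd (by positivity))
    _ ≤ 9 * eps * Λ * S := by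
        have h1 : 0 ≤ eps * Λ * S := by positivity
        nlinarith

/-- the numerical radius estimate -/
theorem star (h : BHyp PP UU Psi NN win wt one cj ch cn HH BB Q L sh shc q0 C K0 eps eta)
    {Λ : ℝ} (hΛ0 : 0 ≤ Λ)
    (hΛ : ∀ j ∈ Psi.erase one, ∀ x : ω → ℝ, ‖bil UU (mass PP win wt) (HH j) (rv x) (rv x)‖
      ≤ Λ * ∑ u ∈ UU, mass PP win wt u * x u ^ 2)
    {N : ν} (hN : N ∈ NN) {i : ι} (hi : i ∈ Psi) (hi1 : i ≠ one) (x : ω → ℝ) {X : ℝ}
    (hX : 0 < X) (hxX : ∀ u ∈ UU, |x u| ≤ X) :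
    1 / 2 * ‖bil UU (mass PP win wt) (HH i) (rv x) (rv x)‖
      ≤ (4 * C + 9 * eps * Λ) * ∑ u ∈ UU, mass PP win wt u * x u ^ 2 + 2 * eta * (2 * X) ^ 2 := by
  obtain ⟨N', hN', z, hz, hmain⟩ := phase_exists h hi hi1 hN x
  set S := ∑ u ∈ UU, mass PP win wt u * x u ^ 2 with hS
  set θ : π → ℝ := tv PP win wt ch (fun _ => i) (fun _ => z) x with hθ
  have hs : ∀ u ∈ UU, (fun _ : ω => i) u ∈ Psi := fun _ _ => hi
  have hzz : ∀ u ∈ UU, ‖(fun _ : ω => z) u‖ = 1 := fun _ _ => hz
  have hθX : ∀ p ∈ PP, |θ p| ≤ 2 * X := by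
    intro p hp
    have h1 := tv_le h hs hzz x hp
    have h2 := hxX _ (h.win_mem p hp)
    linarith
  have h1 := pos_scaled h hN' θ (T := 2 * X) (by positivity) hθX
  have h2 := wt_sum_le h hs hzz x
  rw [← hS, ← hθ] at h2
  have h3 := QT_eq (Psi := Psi) (cn := cn) (HH := HH) (N := N') θ
    (fun j u => (x u : ℂ) * (cc cj (fun _ => i) (fun _ => z) j u
        + dd PP win wt one cj ch (fun _ => i) (fun _ => z) j u))
    (fun j _ u hu => tv_split h x hu hi j)
  have h4 : bil UU (mass PP win wt) (HH one) (fun u => (x u : ℂ)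
      * (cc cj (fun _ => i) (fun _ => z) one u
        + dd PP win wt one cj ch (fun _ => i) (fun _ => z) one u)) (fun u => (x u : ℂ)
      * (cc cj (fun _ => i) (fun _ => z) one u
        + dd PP win wt one cj ch (fun _ => i) (fun _ => z) one u)) = 0 := by
    have h5 : ∀ u ∈ UU, (x u : ℂ) * (cc cj (fun _ => i) (fun _ => z) one u
        + dd PP win wt one cj ch (fun _ => i) (fun _ => z) one u) = 0 := by
      intro u hu
      have h6 := tv_split h x hu (sel := fun _ => i) (z := fun _ => z) hi one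
      rw [tv_one h x hu] at h6
      have hm : (mass PP win wt u : ℂ) ≠ 0 := by exact_mod_cast (h.mass_pos u hu).ne'
      exact (mul_eq_zero.1 h6.symm).resolve_left hm
    exact bil_zero_left UU _ _ h5
  rw [sum_erase_one h _ (by rw [h4, mul_zero])] at h3
  have hcc : ∀ (j : ι) (u : ω), cc cj (fun _ => i) (fun _ => z) j u
      = (if j = i then z / 2 else 0) + (if j = cj i then conj z / 2 else 0) := fun j u => rfl
  have h7 := err_le h hΛ0 hΛ hN' x
    (fun j => (if j = i then z / 2 else 0) + (if j = cj i then conj z / 2 else 0))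
    (by
      by_cases hU : UU.Nonempty
      · obtain ⟨u, hu⟩ := hU
        exact cc_sum (cj := cj) (sel := fun _ => i) (z := fun _ => z) (u := u) hz _
      · have h8 : ∑ j ∈ Psi.erase one, ‖(if j = i then z / 2 else 0)
            + (if j = cj i then conj z / 2 else 0)‖
            ≤ ∑ j ∈ Psi.erase one, ((if j = i then (1 : ℝ) / 2 else 0)
              + (if j = cj i then 1 / 2 else 0)) := by
          refine Finset.sum_le_sum fun j _ => ?_
          refine le_trans (norm_add_le _ _) (add_le_add ?_ ?_)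
          · split_ifs
            · rw [norm_div, hz]; norm_num
            · simp
          · split_ifs
            · rw [norm_div, RCLike.norm_conj, hz]; norm_num
            · simp
        refine le_trans h8 ?_
        rw [Finset.sum_add_distrib, Finset.sum_ite_eq' _ i, Finset.sum_ite_eq' _ (cj i)]
        split_ifs <;> norm_num)
    (fun j u => dd PP win wt one cj ch (fun _ => i) (fun _ => z) j u)
    (fun u hu => dd_sum h hu (sel := fun _ => i) (z := fun _ => z) hi hz)
  rw [← hS] at h7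
  simp only [hcc] at h3
  rw [abs_le] at h7
  have h9 := h7.2
  rw [← h3] at h9
  have hC := h.C_ge
  have h10 : C * ∑ p ∈ PP, wt p * θ p ^ 2 ≤ C * (4 * S) :=
    mul_le_mul_of_nonneg_left h2 (by linarith)
  have h11 : (4 * C + 9 * eps * Λ) * S = C * (4 * S) + 9 * eps * Λ * S := by ring
  rw [h11]
  linarith

theorem bil_rv_smul (UU : Finset ω) (m : ω → ℝ) (K : ω → ω → ℂ) (c : ℝ) (x : ω → ℝ) :
    bil UU m K (rv (fun u => c * x u)) (rv (fun u => c * x u))
      = ((c ^ 2 : ℝ) : ℂ) * bil UU m K (rv x) (rv x) := by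
  have h1 : rv (fun u => c * x u) = fun u => (c : ℂ) * rv x u := by
    funext u
    simp [rv]
  rw [h1, bil_smul_left, bil_smul_right]
  push_cast
  ring

/-- from the unit ball to all vectors -/
theorem homog (UU : Finset ω) (m : ω → ℝ) (hm : ∀ u ∈ UU, 0 < m u) (K : ω → ω → ℂ) {Λ : ℝ}
    (h : ∀ y : ω → ℝ, (∑ u ∈ UU, m u * y u ^ 2 ≤ 1) → ‖bil UU m K (rv y) (rv y)‖ ≤ Λ) (x : ω → ℝ) :
    ‖bil UU m K (rv x) (rv x)‖ ≤ Λ * ∑ u ∈ UU, m u * x u ^ 2 := by
  set S := ∑ u ∈ UU, m u * x u ^ 2 with hS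
  have hS0 : 0 ≤ S := Finset.sum_nonneg fun u hu => mul_nonneg (hm u hu).le (sq_nonneg _)
  rcases hS0.eq_or_lt with h0 | h0
  · have h1 : ∀ u ∈ UU, x u = 0 := by
      intro u hu
      have h2 := (Finset.sum_eq_zero_iff_of_nonneg
        (fun u hu => mul_nonneg (hm u hu).le (sq_nonneg (x u)))).1 h0.symm u hu
      have h3 := (mul_eq_zero.1 h2).resolve_left (hm u hu).ne'
      exact pow_eq_zero_iff (two_ne_zero) |>.1 h3
    have h4 : bil UU m K (rv x) (rv x) = 0 := by
      unfold bil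
      refine Finset.sum_eq_zero fun u hu => Finset.sum_eq_zero fun v hv => ?_
      simp [rv, h1 u hu]
    rw [h4, ← h0]
    simp
  · have hr : 0 < Real.sqrt S := Real.sqrt_pos.2 h0
    have h1 := h (fun u => (Real.sqrt S)⁻¹ * x u) (by
      have h2 : ∑ u ∈ UU, m u * ((Real.sqrt S)⁻¹ * x u) ^ 2 = S⁻¹ * S := by
        rw [hS, Finset.mul_sum, ← hS]
        refine Finset.sum_congr rfl fun u _ => ?_
        rw [mul_pow, inv_pow, Real.sq_sqrt hS0]
        ring
      rw [h2, inv_mul_cancel₀ h0.ne'])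
    rw [bil_rv_smul, norm_mul, Complex.norm_real, Real.norm_eq_abs, inv_pow, Real.sq_sqrt hS0,
      abs_of_pos (inv_pos.2 h0), inv_mul_le_iff₀ h0] at h1
    linarith

/-- the bound for the numerical radius -/
theorem rad_bound (h : BHyp PP UU Psi NN win wt one cj ch cn HH BB Q L sh shc q0 C K0 eps eta)
    {N : ν} (hN : N ∈ NN) (hne : (Psi.erase one).Nonempty) :
    ∀ j ∈ Psi.erase one, ∀ x : ω → ℝ, ‖bil UU (mass PP win wt) (HH j) (rv x) (rv x)‖
      ≤ 18 * C * ∑ u ∈ UU, mass PP win wt u * x u ^ 2 := by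
  obtain ⟨i, hi, x, hx, hmax⟩ := ext_exists UU (mass PP win wt) h.mass_pos (Psi.erase one) hne HH
  set Λ := ‖bil UU (mass PP win wt) (HH i) (rv x) (rv x)‖ with hΛ
  have hΛall : ∀ j ∈ Psi.erase one, ∀ y : ω → ℝ,
      ‖bil UU (mass PP win wt) (HH j) (rv y) (rv y)‖
        ≤ Λ * ∑ u ∈ UU, mass PP win wt u * y u ^ 2 :=
    fun j hj y => homog UU (mass PP win wt) h.mass_pos (HH j) (hmax j hj) y
  have hC := h.C_ge
  have hΛC : Λ ≤ 18 * C := by
    by_cases h1 : Λ ≤ 1
    · linarith
    push Not at h1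
    have hiP := Finset.mem_of_mem_erase hi
    have hi1 := Finset.ne_of_mem_erase hi
    have hK0 := h.K0_ge
    have h2 := ext_sup UU (mass PP win wt) h.mass_pos h.mass_le (HH i) (h.HH_symm i hiP)
      (h.HH_le i hiP) (by linarith) x hx (hΛall i hi)
    rw [← hΛ] at h2
    have hX : 0 < K0 / Λ := by positivity
    have h3 : ∀ u ∈ UU, |x u| ≤ K0 / Λ := by
      intro u hu
      rw [le_div_iff₀ (by linarith)]
      have := h2 u hu
      linarith
    have h4 := star h (by linarith) hΛall hN hiP hi1 x hX h3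
    rw [← hΛ] at h4
    have h5 : (4 * C + 9 * eps * Λ) * ∑ u ∈ UU, mass PP win wt u * x u ^ 2
        ≤ (4 * C + 9 * eps * Λ) * 1 := by
      apply mul_le_mul_of_nonneg_left hx
      have := h.eps_pos
      positivity
    have h6 : 2 * eta * (2 * (K0 / Λ)) ^ 2 ≤ 1 / 2 := by
      have h7 : 2 * eta * (2 * (K0 / Λ)) ^ 2 = 8 * (eta * K0 ^ 2) / Λ ^ 2 := by
        field_simp
        ring
      rw [h7, div_le_iff₀ (by positivity)]
      have h8 := h.eta_le
      have h9 : 1 ≤ Λ ^ 2 := by nlinarith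
      linarith
    have h10 : 9 * eps * Λ ≤ 9 * (1 / 64) * Λ := by
      have := h.eps_le
      nlinarith
    nlinarith
  intro j hj y
  refine le_trans (hΛall j hj y) ?_
  apply mul_le_mul_of_nonneg_right hΛC
  exact Finset.sum_nonneg fun u hu => mul_nonneg (h.mass_pos u hu).le (sq_nonneg _)

end

end Pool.Agent.LSPB
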