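import Pool.Agent.Lib_helper14.LSPB.Bil

/-!
Part B: the test vectors.
-/

open scoped BigOperators ComplexConjugate

noncomputable section

namespace Pool.Agent.LSPB

variable {ι π ω ν : Type*} [DecidableEq ι] [DecidableEq ω]

/-- real part of z conj(psi(p)) -/
def rr (ch : ι → π → ℂ) (sel : ω → ι) (z : ω → ℂ) (u : ω) (p : π) : ℝ :=
  (z u * conj (ch (sel u) p)).re

/-- its mean over the window -/
def mu (PP : Finset π) (win : π → ω) (wt : π → ℝ) (ch : ι → π → ℂ) (sel : ω → ι) (z : ω → ℂ)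
    (u : ω) : ℝ :=
  (∑ p ∈ PP with win p = u, wt p * rr ch sel z u p) / mass PP win wt u

/-- the test vector -/
def tv (PP : Finset π) (win : π → ω) (wt : π → ℝ) (ch : ι → π → ℂ) (sel : ω → ι) (z : ω → ℂ)
    (xi : ω → ℝ) (p : π) : ℝ :=
  xi (win p) * (rr ch sel z (win p) p - mu PP win wt ch sel z (win p))

/-- main coefficient -/
def cc (cj : ι → ι) (sel : ω → ι) (z : ω → ℂ) (j : ι) (u : ω) : ℂ :=
  (if j = sel u then z u / 2 else 0) + (if j = cj (sel u) then conj (z u) / 2 else 0)

/-- small coefficient -/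
def dd (PP : Finset π) (win : π → ω) (wt : π → ℝ) (one : ι) (cj : ι → ι) (ch : ι → π → ℂ)
    (sel : ω → ι) (z : ω → ℂ) (j : ι) (u : ω) : ℂ :=
  (z u / 2 * (if j = sel u then 0
      else wsum PP win wt u (fun p => conj (ch (sel u) p) * ch j p))
    + conj (z u) / 2 * (if j = cj (sel u) then 0
      else wsum PP win wt u (fun p => conj (ch (cj (sel u)) p) * ch j p))
    - (mu PP win wt ch sel z u : ℂ) * wsum PP win wt u (fun p => conj (ch one p) * ch j p))
    / (mass PP win wt u : ℂ)

section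

variable {PP : Finset π} {UU : Finset ω} {Psi : Finset ι} {NN : Set ν}
  {win : π → ω} {wt : π → ℝ} {one : ι} {cj : ι → ι} {ch : ι → π → ℂ} {cn : ι → ν → ℂ}
  {HH : ι → ω → ω → ℂ} {BB : ι → ω → ℂ} {Q L sh shc : ν → (π → ℝ) → ℝ} {q0 : ν → ℝ}
  {C K0 eps eta : ℝ}

theorem wsum_congr {u : ω} {f g : π → ℂ} (h : ∀ p ∈ PP, win p = u → f p = g p) :
    wsum PP win wt u f = wsum PP win wt u g := by
  unfold wsum
  refine Finset.sum_congr rfl fun p hp => ?_
  rw [Finset.mem_filter] at hp
  rw [h p hp.1 hp.2]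

theorem wsum_smul {u : ω} (c : ℂ) (f : π → ℂ) :
    wsum PP win wt u (fun p => c * f p) = c * wsum PP win wt u f := by
  unfold wsum
  rw [Finset.mul_sum]
  refine Finset.sum_congr rfl fun p _ => ?_
  ring

theorem wsum_add {u : ω} (f g : π → ℂ) :
    wsum PP win wt u (fun p => f p + g p) = wsum PP win wt u f + wsum PP win wt u g := by
  unfold wsum
  rw [← Finset.sum_add_distrib]
  refine Finset.sum_congr rfl fun p _ => ?_
  ring

theorem wsum_one {u : ω} : wsum PP win wt u (fun _ => 1) = (mass PP win wt u : ℂ) := by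
  unfold wsum mass
  push_cast
  refine Finset.sum_congr rfl fun p _ => ?_
  ring

theorem mass_nonneg (h : BHyp PP UU Psi NN win wt one cj ch cn HH BB Q L sh shc q0 C K0 eps eta)
    (u : ω) : 0 ≤ mass PP win wt u :=
  Finset.sum_nonneg fun p hp => h.wt_nonneg p (Finset.mem_filter.1 hp).1

theorem rr_le (h : BHyp PP UU Psi NN win wt one cj ch cn HH BB Q L sh shc q0 C K0 eps eta)
    {sel : ω → ι} {z : ω → ℂ} {u : ω} (hs : sel u ∈ Psi) (hz : ‖z u‖ = 1) {p : π} (hp : p ∈ PP) :
    |rr ch sel z u p| ≤ 1 := by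
  unfold rr
  refine le_trans (Complex.abs_re_le_norm _) ?_
  rw [norm_mul, hz, RCLike.norm_conj, h.ch_norm _ hs p hp, one_mul]

theorem mu_le (h : BHyp PP UU Psi NN win wt one cj ch cn HH BB Q L sh shc q0 C K0 eps eta)
    {sel : ω → ι} {z : ω → ℂ} {u : ω} (hu : u ∈ UU) (hs : sel u ∈ Psi) (hz : ‖z u‖ = 1) :
    |mu PP win wt ch sel z u| ≤ 1 := by
  unfold mu
  have hm := h.mass_pos u hu
  rw [abs_div, abs_of_pos hm, div_le_one hm]
  unfold mass
  refine le_trans (Finset.abs_sum_le_sum_abs _ _) (Finset.sum_le_sum fun p hp => ?_)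
  have hp' := (Finset.mem_filter.1 hp).1
  rw [abs_mul, abs_of_nonneg (h.wt_nonneg p hp')]
  have h1 := rr_le h hs hz hp'
  have h2 := h.wt_nonneg p hp'
  nlinarith

theorem tv_le (h : BHyp PP UU Psi NN win wt one cj ch cn HH BB Q L sh shc q0 C K0 eps eta)
    {sel : ω → ι} {z : ω → ℂ} (hs : ∀ u ∈ UU, sel u ∈ Psi) (hz : ∀ u ∈ UU, ‖z u‖ = 1)
    (xi : ω → ℝ) {p : π} (hp : p ∈ PP) :
    |tv PP win wt ch sel z xi p| ≤ 2 * |xi (win p)| := by
  unfold tv
  have hu := h.win_mem p hp
  have h1 := rr_le h (hs _ hu) (hz _ hu) hp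
  have h2 := mu_le h hu (hs _ hu) (hz _ hu)
  rw [abs_mul]
  have h3 : |rr ch sel z (win p) p - mu PP win wt ch sel z (win p)| ≤ 2 := by
    refine le_trans (abs_sub _ _) ?_
    linarith
  nlinarith [abs_nonneg (xi (win p))]

theorem tv_mean (h : BHyp PP UU Psi NN win wt one cj ch cn HH BB Q L sh shc q0 C K0 eps eta)
    (sel : ω → ι) (z : ω → ℂ) (xi : ω → ℝ) (u : ω) (hu : u ∈ UU) :
    ∑ p ∈ PP with win p = u, wt p * tv PP win wt ch sel z xi p = 0 := by
  have hm := h.mass_pos u hu
  have h1 : ∑ p ∈ PP with win p = u, wt p * tv PP win wt ch sel z xi p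
      = xi u * ((∑ p ∈ PP with win p = u, wt p * rr ch sel z u p)
        - mu PP win wt ch sel z u * mass PP win wt u) := by
    unfold mass
    rw [Finset.mul_sum, ← Finset.sum_sub_distrib, Finset.mul_sum]
    refine Finset.sum_congr rfl fun p hp => ?_
    have hp' := (Finset.mem_filter.1 hp).2
    unfold tv
    rw [hp']
    ring
  rw [h1]
  have h2 : mu PP win wt ch sel z u * mass PP win wt u
      = ∑ p ∈ PP with win p = u, wt p * rr ch sel z u p := by
    unfold mu
    rw [div_mul_cancel₀ _ hm.ne']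
  rw [h2, sub_self, mul_zero]

theorem tv_wsum (h : BHyp PP UU Psi NN win wt one cj ch cn HH BB Q L sh shc q0 C K0 eps eta)
    {sel : ω → ι} {z : ω → ℂ} (xi : ω → ℝ) {u : ω} (hs : sel u ∈ Psi) (j : ι) :
    wsum PP win wt u (fun p => (tv PP win wt ch sel z xi p : ℂ) * ch j p)
      = xi u * (z u / 2 * wsum PP win wt u (fun p => conj (ch (sel u) p) * ch j p)
        + conj (z u) / 2 * wsum PP win wt u (fun p => conj (ch (cj (sel u)) p) * ch j p)
        - (mu PP win wt ch sel z u : ℂ) * wsum PP win wt u (fun p => conj (ch one p) * ch j p)) := by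
  have h1 : ∀ p ∈ PP, win p = u → (tv PP win wt ch sel z xi p : ℂ) * ch j p
      = (xi u : ℂ) * (z u / 2) * (conj (ch (sel u) p) * ch j p)
        + ((xi u : ℂ) * (conj (z u) / 2) * (conj (ch (cj (sel u)) p) * ch j p)
        + (-(xi u : ℂ) * (mu PP win wt ch sel z u : ℂ)) * (conj (ch one p) * ch j p)) := by
    intro p hp hpu
    unfold tv
    rw [hpu]
    have h2 : ((rr ch sel z u p : ℝ) : ℂ) = z u / 2 * conj (ch (sel u) p)
        + conj (z u) / 2 * ch (sel u) p := by
      unfold rr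
      rw [Complex.re_eq_add_conj, map_mul, Complex.conj_conj]
      ring
    rw [Complex.ofReal_mul, Complex.ofReal_sub, h2, h.ch_cj _ hs p hp, Complex.conj_conj,
      h.ch_one p hp, map_one]
    ring
  rw [wsum_congr h1, wsum_add, wsum_add, wsum_smul, wsum_smul, wsum_smul]
  ring

theorem wsum_self (h : BHyp PP UU Psi NN win wt one cj ch cn HH BB Q L sh shc q0 C K0 eps eta)
    {u : ω} {i : ι} (hi : i ∈ Psi) :
    wsum PP win wt u (fun p => conj (ch i p) * ch i p) = (mass PP win wt u : ℂ) := by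
  rw [← wsum_one]
  apply wsum_congr
  intro p hp _
  rw [← Complex.normSq_eq_conj_mul_self, Complex.normSq_eq_norm_sq, h.ch_norm i hi p hp]
  simp

theorem tv_split (h : BHyp PP UU Psi NN win wt one cj ch cn HH BB Q L sh shc q0 C K0 eps eta)
    {sel : ω → ι} {z : ω → ℂ} (xi : ω → ℝ) {u : ω} (hu : u ∈ UU) (hs : sel u ∈ Psi) (j : ι) :
    wsum PP win wt u (fun p => (tv PP win wt ch sel z xi p : ℂ) * ch j p)
      = (mass PP win wt u : ℂ) * ((xi u : ℂ) * (cc cj sel z j u
        + dd PP win wt one cj ch sel z j u)) := by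
  have hm : (mass PP win wt u : ℂ) ≠ 0 := by exact_mod_cast (h.mass_pos u hu).ne'
  rw [tv_wsum h xi hs j]
  have h1 : wsum PP win wt u (fun p => conj (ch (sel u) p) * ch j p)
      = (if j = sel u then (mass PP win wt u : ℂ) else 0) + (if j = sel u then 0
      else wsum PP win wt u (fun p => conj (ch (sel u) p) * ch j p)) := by
    split_ifs with hj
    · rw [hj, wsum_self h hs, add_zero]
    · rw [zero_add]
  have h2 : wsum PP win wt u (fun p => conj (ch (cj (sel u)) p) * ch j p)
      = (if j = cj (sel u) then (mass PP win wt u : ℂ) else 0) + (if j = cj (sel u) then 0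
      else wsum PP win wt u (fun p => conj (ch (cj (sel u)) p) * ch j p)) := by
    split_ifs with hj
    · rw [hj, wsum_self h (h.cj_mem _ hs), add_zero]
    · rw [zero_add]
  have h3 : (mass PP win wt u : ℂ) * dd PP win wt one cj ch sel z j u
      = z u / 2 * (if j = sel u then 0
      else wsum PP win wt u (fun p => conj (ch (sel u) p) * ch j p))
    + conj (z u) / 2 * (if j = cj (sel u) then 0
      else wsum PP win wt u (fun p => conj (ch (cj (sel u)) p) * ch j p))
    - (mu PP win wt ch sel z u : ℂ) * wsum PP win wt u (fun p => conj (ch one p) * ch j p) := by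
    unfold dd
    rw [mul_div_cancel₀ _ hm]
  have h4 : (mass PP win wt u : ℂ) * cc cj sel z j u
      = z u / 2 * (if j = sel u then (mass PP win wt u : ℂ) else 0)
        + conj (z u) / 2 * (if j = cj (sel u) then (mass PP win wt u : ℂ) else 0) := by
    unfold cc
    split_ifs <;> ring
  have h5 : (mass PP win wt u : ℂ) * ((xi u : ℂ) * (cc cj sel z j u
        + dd PP win wt one cj ch sel z j u))
      = (xi u : ℂ) * ((mass PP win wt u : ℂ) * cc cj sel z j u
        + (mass PP win wt u : ℂ) * dd PP win wt one cj ch sel z j u) := by ring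
  rw [h5, h3, h4]
  conv_lhs => rw [h1, h2]
  ring

theorem tv_one (h : BHyp PP UU Psi NN win wt one cj ch cn HH BB Q L sh shc q0 C K0 eps eta)
    {sel : ω → ι} {z : ω → ℂ} (xi : ω → ℝ) {u : ω} (hu : u ∈ UU) :
    wsum PP win wt u (fun p => (tv PP win wt ch sel z xi p : ℂ) * ch one p) = 0 := by
  have h1 : wsum PP win wt u (fun p => (tv PP win wt ch sel z xi p : ℂ) * ch one p)
      = ((∑ p ∈ PP with win p = u, wt p * tv PP win wt ch sel z xi p : ℝ) : ℂ) := by
    unfold wsum
    push_cast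
    refine Finset.sum_congr rfl fun p hp => ?_
    rw [h.ch_one p (Finset.mem_filter.1 hp).1, mul_one]
  rw [h1, tv_mean h sel z xi u hu, Complex.ofReal_zero]

theorem dd_sum (h : BHyp PP UU Psi NN win wt one cj ch cn HH BB Q L sh shc q0 C K0 eps eta)
    {sel : ω → ι} {z : ω → ℂ} {u : ω} (hu : u ∈ UU) (hs : sel u ∈ Psi) (hz : ‖z u‖ = 1) :
    ∑ j ∈ Psi.erase one, ‖dd PP win wt one cj ch sel z j u‖ ≤ 2 * eps := by
  have hm := h.mass_pos u hu
  have hmu := mu_le h hu hs hz
  have h1 : ∀ j ∈ Psi.erase one, ‖dd PP win wt one cj ch sel z j u‖ * mass PP win wt u ≤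
      1 / 2 * (if j = sel u then 0
        else ‖wsum PP win wt u (fun p => conj (ch (sel u) p) * ch j p)‖)
      + 1 / 2 * (if j = cj (sel u) then 0
        else ‖wsum PP win wt u (fun p => conj (ch (cj (sel u)) p) * ch j p)‖)
      + ‖wsum PP win wt u (fun p => conj (ch one p) * ch j p)‖ := by
    intro j _
    unfold dd
    rw [norm_div, Complex.norm_real, Real.norm_eq_abs, abs_of_pos hm, div_mul_cancel₀ _ hm.ne']
    refine le_trans (norm_sub_le _ _) ?_
    refine add_le_add (le_trans (norm_add_le _ _) (add_le_add ?_ ?_)) ?_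
    · rw [norm_mul, norm_div, hz]
      split_ifs
      · simp
      · norm_num
    · rw [norm_mul, norm_div, RCLike.norm_conj, hz]
      split_ifs
      · simp
      · norm_num
    · rw [norm_mul, Complex.norm_real, Real.norm_eq_abs]
      nlinarith [norm_nonneg (wsum PP win wt u (fun p => conj (ch one p) * ch j p))]
  have h2 : ∀ i ∈ Psi, ∑ j ∈ Psi.erase one, (if j = i then 0
        else ‖wsum PP win wt u (fun p => conj (ch i p) * ch j p)‖) ≤ eps * mass PP win wt u := by
    intro i hi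
    refine le_trans ?_ (h.orth i hi u hu)
    calc ∑ j ∈ Psi.erase one, (if j = i then 0
        else ‖wsum PP win wt u (fun p => conj (ch i p) * ch j p)‖)
        ≤ ∑ j ∈ Psi, (if j = i then 0
        else ‖wsum PP win wt u (fun p => conj (ch i p) * ch j p)‖) := by
          apply Finset.sum_le_sum_of_subset_of_nonneg (Finset.erase_subset _ _)
          intro j _ _
          split_ifs
          · exact le_rfl
          · exact norm_nonneg _
      _ = ∑ j ∈ Psi.erase i, (if j = i then 0
        else ‖wsum PP win wt u (fun p => conj (ch i p) * ch j p)‖) := by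
          rw [← Finset.add_sum_erase Psi _ hi, if_pos rfl, zero_add]
      _ = _ := by
          refine Finset.sum_congr rfl fun j hj => ?_
          rw [if_neg (Finset.ne_of_mem_erase hj)]
  have h3 := h2 _ hs
  have h4 := h2 _ (h.cj_mem _ hs)
  have h5 := h.orth one h.one_mem u hu
  have h6 : (∑ j ∈ Psi.erase one, ‖dd PP win wt one cj ch sel z j u‖) * mass PP win wt u
      ≤ 2 * eps * mass PP win wt u := by
    rw [Finset.sum_mul]
    refine le_trans (Finset.sum_le_sum h1) ?_
    rw [Finset.sum_add_distrib, Finset.sum_add_distrib, ← Finset.mul_sum, ← Finset.mul_sum]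
    linarith
  exact le_of_mul_le_mul_right h6 hm

theorem cc_sum {sel : ω → ι} {z : ω → ℂ} {u : ω} (hz : ‖z u‖ = 1) (S : Finset ι) :
    ∑ j ∈ S, ‖cc cj sel z j u‖ ≤ 1 := by
  have h1 : ∀ j ∈ S, ‖cc cj sel z j u‖ ≤ (if j = sel u then 1 / 2 else 0)
      + (if j = cj (sel u) then 1 / 2 else 0) := by
    intro j _
    unfold cc
    refine le_trans (norm_add_le _ _) (add_le_add ?_ ?_)
    · split_ifs
      · rw [norm_div, hz]; norm_num
      · simp
    · split_ifs
      · rw [norm_div, RCLike.norm_conj, hz]; norm_num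
      · simp
  refine le_trans (Finset.sum_le_sum h1) ?_
  rw [Finset.sum_add_distrib, Finset.sum_ite_eq' S (sel u), Finset.sum_ite_eq' S (cj (sel u))]
  split_ifs <;> norm_num

theorem wt_sum_le (h : BHyp PP UU Psi NN win wt one cj ch cn HH BB Q L sh shc q0 C K0 eps eta)
    {sel : ω → ι} {z : ω → ℂ} (hs : ∀ u ∈ UU, sel u ∈ Psi) (hz : ∀ u ∈ UU, ‖z u‖ = 1)
    (xi : ω → ℝ) :
    ∑ p ∈ PP, wt p * tv PP win wt ch sel z xi p ^ 2
      ≤ 4 * ∑ u ∈ UU, mass PP win wt u * xi u ^ 2 := by
  rw [← Finset.sum_fiberwise_of_maps_to (s := PP) (t := UU) (g := win) h.win_mem, Finset.mul_sum]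
  refine Finset.sum_le_sum fun u hu => ?_
  unfold mass
  rw [Finset.sum_mul, Finset.mul_sum]
  refine Finset.sum_le_sum fun p hp => ?_
  rw [Finset.mem_filter] at hp
  have h1 := tv_le h hs hz xi hp.1
  rw [hp.2] at h1
  have h2 : tv PP win wt ch sel z xi p ^ 2 ≤ 4 * xi u ^ 2 := by
    rw [← sq_abs (tv PP win wt ch sel z xi p), ← sq_abs (xi u)]
    nlinarith [abs_nonneg (tv PP win wt ch sel z xi p), abs_nonneg (xi u)]
  have h3 := h.wt_nonneg p hp.1
  nlinarith

end

end Pool.Agent.LSPB
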